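import Pool.Agent.Lib_helper51.TM32.Defs2
import Pool.Agent.Lib_helper51.TM32.E2

/-!
# TM32, block E3: normalisation (helper33)
-/

set_option autoImplicit false

namespace Pool.Agent.TM32

namespace E33

theorem c1 (x y : Z8) : (x * y).re.re = x.re.re * y.re.re - 2 * x.re.im * y.re.im +
    x.im.re * y.im.re - 2 * x.im.im * y.im.im := by
  simp only [QuadraticAlgebra.re_mul, Zsqrtd.re_add, Zsqrtd.re_mul, Zsqrtd.im_mul, Zsqrtd.re_one,
    Zsqrtd.im_one]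
  ring

theorem c2 (x y : Z8) : (x * y).re.im = x.re.re * y.re.im + x.re.im * y.re.re +
    x.im.re * y.im.im + x.im.im * y.im.re := by
  simp only [QuadraticAlgebra.re_mul, Zsqrtd.im_add, Zsqrtd.re_mul, Zsqrtd.im_mul, Zsqrtd.re_one,
    Zsqrtd.im_one]
  ring

theorem c3 (x y : Z8) : (x * y).im.re = x.re.re * y.im.re - 2 * x.re.im * y.im.im +
    x.im.re * y.re.re - 2 * x.im.im * y.re.im - 2 * (x.im.re * y.im.im + x.im.im * y.im.re) := by
  simp only [QuadraticAlgebra.im_mul, Zsqrtd.re_add, Zsqrtd.re_mul, Zsqrtd.im_mul]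
  ring

theorem c4 (x y : Z8) : (x * y).im.im = x.re.re * y.im.im + x.re.im * y.im.re +
    x.im.re * y.re.im + x.im.im * y.re.re + x.im.re * y.im.re - 2 * x.im.im * y.im.im := by
  simp only [QuadraticAlgebra.im_mul, Zsqrtd.im_add, Zsqrtd.re_mul, Zsqrtd.im_mul]
  ring

theorem odd_iff_N8 (w : Z8) : N8 w % 2 = (w.re.re + w.im.re) % 2 := by
  have h1 : N8 w = (w.re.re + w.im.re) ^ 2 + 2 * (N8 w - (w.re.re + w.im.re) ^ 2 -
      (N8 w - (w.re.re + w.im.re) ^ 2) / 2) := by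
    have h2 : ∃ z, N8 w - (w.re.re + w.im.re) ^ 2 = 2 * z := by
      have h3 : (2 : ℤ) ∣ N8 w - (w.re.re + w.im.re) ^ 2 := by
        rw [N8_eq]
        have h4 : gg w = (w.re.re + w.im.re) ^ 2 + 2 * (w.im.im ^ 2 + w.re.im ^ 2 -
            w.re.re * w.im.im + w.im.re * w.re.im - w.re.re * w.im.re) := by
          unfold gg
          ring
        set a := w.re.re + w.im.re with ha
        have h5 : (2 : ℤ) ∣ a ^ 4 - a ^ 2 := by
          have h6 := Int.even_mul_succ_self (a ^ 2 - 1)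
          have h7 : a ^ 4 - a ^ 2 = (a ^ 2 - 1) * (a ^ 2 - 1 + 1) := by ring
          rw [h7]
          exact h6.two_dvd
        obtain ⟨t, ht⟩ := h5
        rw [h4]
        set q := w.im.im ^ 2 + w.re.im ^ 2 - w.re.re * w.im.im + w.im.re * w.re.im -
          w.re.re * w.im.re with hq
        refine ⟨t + 2 * q * a ^ 2 + 2 * q ^ 2 - hh w ^ 2, ?_⟩
        linear_combination ht
      exact h3
    obtain ⟨z, hz⟩ := h2
    omega
  have h2 : (w.re.re + w.im.re) ^ 2 % 2 = (w.re.re + w.im.re) % 2 := by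
    rcases Int.emod_two_eq_zero_or_one (w.re.re + w.im.re) with h | h <;>
      simp [pow_two, Int.mul_emod, h]
  omega

theorem Wp_zet2 {w : Z8} (hw : Wp w) : Wp (zet ^ 2 * w) := by
  obtain ⟨⟨h1, h2⟩, h3⟩ := hw
  rw [pow_two, mul_assoc]
  refine ⟨⟨?_, ?_⟩, ?_⟩
  · rw [c1, c3]
    simp only [c1, c2, c3, c4, Zsqrtd.re_zero, Zsqrtd.im_zero, Zsqrtd.re_one, Zsqrtd.im_one]
    omega
  · rw [c2]
    simp only [c1, c2, c3, c4, Zsqrtd.re_zero, Zsqrtd.im_zero, Zsqrtd.re_one, Zsqrtd.im_one]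
    omega
  · rw [c3]
    simp only [c1, c2, c3, c4, Zsqrtd.re_zero, Zsqrtd.im_zero, Zsqrtd.re_one, Zsqrtd.im_one]
    omega

theorem Wp_eps2 {w : Z8} (hw : Wp w) : Wp (eps ^ 2 * w) := by
  obtain ⟨⟨h1, h2⟩, h3⟩ := hw
  rw [pow_two, mul_assoc]
  refine ⟨⟨?_, ?_⟩, ?_⟩
  · rw [c1]
    simp only [c1, c2, c3, c4]
    omega
  · rw [c2]
    simp only [c1, c2, c3, c4]
    omega
  · rw [c3]
    simp only [c1, c2, c3, c4]
    omega

theorem Wp_zet_pow {w : Z8} (hw : Wp w) (a : ℕ) : Wp (zet ^ (2 * a) * w) := by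
  induction a with
  | zero => simpa using hw
  | succ a ih =>
    have : zet ^ (2 * (a + 1)) * w = zet ^ 2 * (zet ^ (2 * a) * w) := by ring
    rw [this]
    exact Wp_zet2 ih

theorem Wp_eps_pow {w : Z8} (hw : Wp w) (a : ℕ) : Wp (eps ^ (2 * a) * w) := by
  induction a with
  | zero => simpa using hw
  | succ a ih =>
    have : eps ^ (2 * (a + 1)) * w = eps ^ 2 * (eps ^ (2 * a) * w) := by ring
    rw [this]
    exact Wp_eps2 ih

theorem not_zet {X : Z8} (hX : Wp X) : ¬ Wp (zet * X) := by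
  obtain ⟨⟨h1, h2⟩, h3⟩ := hX
  rintro ⟨⟨h4, h5⟩, h6⟩
  rw [c1] at h4
  simp only [Zsqrtd.re_zero, Zsqrtd.im_zero, Zsqrtd.re_one, Zsqrtd.im_one] at h4
  omega

theorem not_eps {X : Z8} (hX : Wp X) : ¬ Wp (eps * X) := by
  obtain ⟨⟨h1, h2⟩, h3⟩ := hX
  rintro ⟨⟨h4, h5⟩, h6⟩
  rw [c2] at h5
  simp only [] at h5
  omega

theorem not_zet_eps {X : Z8} (hX : Wp X) : ¬ Wp (zet * (eps * X)) := by
  obtain ⟨⟨h1, h2⟩, h3⟩ := hX
  rintro ⟨⟨h4, h5⟩, h6⟩
  rw [c1] at h4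
  simp only [c1, c2, c3, c4, Zsqrtd.re_zero, Zsqrtd.im_zero, Zsqrtd.re_one, Zsqrtd.im_one] at h4
  omega

theorem eps_ne_zet {X Y : Z8} (hX : Wp X) (hY : Wp Y) : eps * Y ≠ zet * X := by
  obtain ⟨⟨h1, h2⟩, h3⟩ := hX
  obtain ⟨⟨h4, h5⟩, h6⟩ := hY
  intro h
  have h7 : (eps * Y).re.re = (zet * X).re.re := by rw [h]
  rw [c1, c1] at h7
  simp only [Zsqrtd.re_zero, Zsqrtd.im_zero, Zsqrtd.re_one, Zsqrtd.im_one] at h7
  omega

theorem gg_eps2 (w : Z8) : gg (eps ^ 2 * w) = 17 * gg w + 24 * hh w := by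
  rw [pow_two, mul_assoc]
  unfold gg hh
  simp only [c1, c2, c3, c4]
  ring

/-- `ε⁻¹` -/
def eps' : Z8 := ⟨⟨-1, -1⟩, ⟨2, 0⟩⟩

theorem eps_mul : eps * eps' = 1 := by
  unfold eps'
  ext
  · rw [c1]
    norm_num
    rfl
  · rw [c2]
    norm_num
    rfl
  · rw [c3]
    norm_num
    rfl
  · rw [c4]
    norm_num
    rfl

theorem gg_eps2' (w : Z8) : gg (eps' ^ 2 * w) = 17 * gg w - 24 * hh w := by
  rw [pow_two, mul_assoc]
  unfold gg hh eps'
  simp only [c1, c2, c3, c4]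
  ring

theorem eps_mul2 (w : Z8) : eps ^ 2 * (eps' ^ 2 * w) = w := by
  rw [← mul_assoc, ← mul_pow, eps_mul, one_pow, one_mul]

theorem bal (n : ℕ) : ∀ w : Z8, gg w ≤ n → ∃ (a b : ℕ) (w' : Z8),
    eps ^ (2 * a) * w = eps ^ (2 * b) * w' ∧ gg w' ^ 2 ≤ 9 * N8 w' := by
  induction n with
  | zero =>
    intro w hw
    have h1 : gg w = 0 := le_antisymm (by simpa using hw) (gg_nonneg w)
    refine ⟨0, 0, w, rfl, ?_⟩
    rw [h1]
    have := N8_nonneg w
    nlinarith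
  | succ n ih =>
    intro w hw
    have h0 := gg_nonneg w
    push_cast at hw
    by_cases h1 : 2 * gg w < 3 * hh w
    · obtain ⟨a, b, w', h3, h4⟩ := ih (eps' ^ 2 * w) (by
        rw [gg_eps2']
        omega)
      refine ⟨a, b + 1, w', ?_, h4⟩
      calc eps ^ (2 * a) * w = eps ^ 2 * (eps ^ (2 * a) * (eps' ^ 2 * w)) := by
            nth_rewrite 1 [← eps_mul2 w]
            ring
        _ = eps ^ (2 * (b + 1)) * w' := by
            rw [h3]
            ring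
    · by_cases h2 : 3 * hh w < -(2 * gg w)
      · obtain ⟨a, b, w', h3, h4⟩ := ih (eps ^ 2 * w) (by
          rw [gg_eps2]
          omega)
        refine ⟨a + 1, b, w', ?_, h4⟩
        rw [← h3]
        ring
      · refine ⟨0, 0, w, rfl, ?_⟩
        rw [N8_eq]
        push Not at h1 h2
        nlinarith

end E33

open E33

theorem Wp_mul {x y : Z8} (hx : Wp x) (hy : Wp y) : Wp (x * y) ∧ (W (x * y) ↔ (W x ↔ W y)) := by
  obtain ⟨⟨h1, h2⟩, h3⟩ := hx
  obtain ⟨⟨h4, h5⟩, h6⟩ := hy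
  obtain ⟨a0, ha0⟩ : ∃ k, x.re.re = 2 * k + 1 := ⟨x.re.re / 2, by omega⟩
  obtain ⟨a1, ha1⟩ : ∃ k, x.re.im = 2 * k := ⟨x.re.im / 2, by omega⟩
  obtain ⟨b0, hb0⟩ : ∃ k, x.im.re = 2 * k := ⟨x.im.re / 2, by omega⟩
  obtain ⟨c0, hc0⟩ : ∃ k, y.re.re = 2 * k + 1 := ⟨y.re.re / 2, by omega⟩
  obtain ⟨c1', hc1⟩ : ∃ k, y.re.im = 2 * k := ⟨y.re.im / 2, by omega⟩
  obtain ⟨d0, hd0⟩ : ∃ k, y.im.re = 2 * k := ⟨y.im.re / 2, by omega⟩
  have e1 : (x * y).re.re = 2 * (2 * a0 * c0 + a0 + c0 - 4 * a1 * c1' + 2 * b0 * d0 -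
      x.im.im * y.im.im) + 1 := by
    rw [c1, ha0, ha1, hb0, hc0, hc1, hd0]
    ring
  have e2 : (x * y).re.im = 2 * (x.re.re * c1' + a1 * y.re.re + b0 * y.im.im + x.im.im * d0) := by
    rw [c2, ha1, hb0, hc1, hd0]
    ring
  have e3 : (x * y).im.re = 4 * (a0 * d0 - a1 * y.im.im + b0 * c0 - x.im.im * c1' -
      (b0 * y.im.im + x.im.im * d0)) + 2 * (b0 + d0) := by
    rw [c3, ha0, ha1, hb0, hc0, hc1, hd0]
    ring
  refine ⟨⟨⟨by omega, by omega⟩, by omega⟩, ?_⟩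
  have hop : Op (x * y).re := ⟨by omega, by omega⟩
  have hopx : Op x.re := ⟨h1, h2⟩
  have hopy : Op y.re := ⟨h4, h5⟩
  unfold W
  simp only [hop, hopx, hopy, true_and]
  omega

theorem exists_Wp {w : Z8} (h : N8 w % 2 = 1) : ∃ u : Z8, N8 u = 1 ∧ Wp (u * w) := by
  rw [odd_iff_N8] at h
  have n1 : N8 zet = 1 := by
    rw [N8_eq]
    unfold gg hh
    norm_num
  have n2 : N8 eps = 1 := by
    rw [N8_eq]
    unfold gg hh
    norm_num
  rcases Int.emod_two_eq_zero_or_one w.re.re with h1 | h1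
  · rcases Int.emod_two_eq_zero_or_one w.im.im with h2 | h2
    · refine ⟨zet, n1, ⟨⟨?_, ?_⟩, ?_⟩⟩
      · rw [c1]
        simp only [Zsqrtd.re_zero, Zsqrtd.im_zero, Zsqrtd.re_one, Zsqrtd.im_one]
        omega
      · rw [c2]
        simp only [Zsqrtd.re_zero, Zsqrtd.im_zero, Zsqrtd.re_one, Zsqrtd.im_one]
        omega
      · rw [c3]
        simp only [Zsqrtd.re_zero, Zsqrtd.im_zero, Zsqrtd.re_one, Zsqrtd.im_one]
        omega
    · refine ⟨zet * eps, by rw [N8_mul, n1, n2, one_mul], ?_⟩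
      rw [mul_assoc]
      refine ⟨⟨?_, ?_⟩, ?_⟩
      · rw [c1]
        simp only [c1, c2, c3, c4, Zsqrtd.re_zero, Zsqrtd.im_zero, Zsqrtd.re_one, Zsqrtd.im_one]
        omega
      · rw [c2]
        simp only [c1, c2, c3, c4, Zsqrtd.re_zero, Zsqrtd.im_zero, Zsqrtd.re_one, Zsqrtd.im_one]
        omega
      · rw [c3]
        simp only [c1, c2, c3, c4, Zsqrtd.re_zero, Zsqrtd.im_zero, Zsqrtd.re_one, Zsqrtd.im_one]
        omega
  · rcases Int.emod_two_eq_zero_or_one w.re.im with h2 | h2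
    · exact ⟨1, N8_one, by rw [one_mul]; exact ⟨⟨h1, h2⟩, by omega⟩⟩
    · refine ⟨eps, n2, ⟨⟨?_, ?_⟩, ?_⟩⟩
      · rw [c1]
        simp only []
        omega
      · rw [c2]
        simp only []
        omega
      · rw [c3]
        simp only []
        omega

/-- two associated elements of `𝒲⁺` differ by `i^a ε^(2j)` -/
theorem assoc_Wp {x y : Z8} (hx : Wp x) (hy : Wp y) (h : Associated x y) :
    ∃ a j : ℕ, y * eps ^ (2 * j) = zet ^ (2 * a) * x ∨
      y = zet ^ (2 * a) * eps ^ (2 * j) * x := by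
  obtain ⟨u, hu⟩ := h
  obtain ⟨a, j, haj⟩ := unit_form (isUnit_iff.1 u.isUnit)
  obtain ⟨a', ha'⟩ := Nat.even_or_odd' a
  obtain ⟨j', hj'⟩ := Nat.even_or_odd' j
  rcases haj with haj | haj
  · have h1 : y * eps ^ j = zet ^ a * x := by
      rw [← hu, ← haj]
      ring
    have hX := Wp_zet_pow hx a'
    have hY := Wp_eps_pow hy j'
    rcases ha' with rfl | rfl <;> rcases hj' with rfl | rfl
    · exact ⟨a', j', Or.inl h1⟩
    · exfalso
      apply not_eps hY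
      have h2 : eps * (eps ^ (2 * j') * y) = zet ^ (2 * a') * x := by
        rw [← h1]
        ring
      rw [h2]
      exact hX
    · exfalso
      apply not_zet hX
      have h2 : zet * (zet ^ (2 * a') * x) = eps ^ (2 * j') * y := by
        rw [mul_comm (eps ^ (2 * j')), h1]
        ring
      rw [h2]
      exact hY
    · exfalso
      apply eps_ne_zet hX hY
      have h2 : eps * (eps ^ (2 * j') * y) = y * eps ^ (2 * j' + 1) := by ring
      rw [h2, h1]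
      ring
  · have h1 : y = zet ^ a * eps ^ j * x := by
      rw [← hu, haj]
      ring
    have hX := Wp_zet_pow (Wp_eps_pow hx j') a'
    rcases ha' with rfl | rfl <;> rcases hj' with rfl | rfl
    · exact ⟨a', j', Or.inr h1⟩
    · exfalso
      apply not_eps hX
      have h2 : eps * (zet ^ (2 * a') * (eps ^ (2 * j') * x)) = y := by
        rw [h1]
        ring
      rw [h2]
      exact hy
    · exfalso
      apply not_zet hX
      have h2 : zet * (zet ^ (2 * a') * (eps ^ (2 * j') * x)) = y := by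
        rw [h1]
        ring
      rw [h2]
      exact hy
    · exfalso
      apply not_zet_eps hX
      have h2 : zet * (eps * (zet ^ (2 * a') * (eps ^ (2 * j') * x))) = y := by
        rw [h1]
        ring
      rw [h2]
      exact hy

theorem balanced {w : Z8} (h : w ≠ 0) :
    ∃ (j : ℕ) (w' : Z8), (w' = eps ^ (2 * j) * w ∨ w = eps ^ (2 * j) * w') ∧
      gg w' ^ 2 ≤ 9 * N8 w' := by
  obtain ⟨a, b, w', h1, h2⟩ := bal (gg w).toNat w (Int.self_le_toNat _)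
  have he : eps ≠ 0 := by
    intro h3
    have h4 := eps_mul
    rw [h3, zero_mul] at h4
    exact zero_ne_one h4
  rcases le_total b a with h3 | h3
  · refine ⟨a - b, w', Or.inl ?_, h2⟩
    have h4 : eps ^ (2 * b) ≠ 0 := pow_ne_zero _ he
    apply mul_left_cancel₀ h4
    rw [← h1, ← mul_assoc, ← pow_add]
    congr 2
    omega
  · refine ⟨b - a, w', Or.inr ?_, h2⟩
    have h4 : eps ^ (2 * a) ≠ 0 := pow_ne_zero _ he
    apply mul_left_cancel₀ h4
    rw [h1, ← mul_assoc, ← pow_add]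
    congr 2
    omega

theorem W_norm {w : Z8} (hw : W w) : N8 w % 8 = 1 := by
  obtain ⟨⟨h1, h2⟩, h3⟩ := hw
  obtain ⟨a0, ha0⟩ : ∃ k, w.re.re = 2 * k + 1 := ⟨w.re.re / 2, by omega⟩
  obtain ⟨a1, ha1⟩ : ∃ k, w.re.im = 2 * k := ⟨w.re.im / 2, by omega⟩
  obtain ⟨b0, hb0⟩ : ∃ k, w.im.re = 4 * k := ⟨w.im.re / 4, by omega⟩
  have hg : ∃ g, gg w = 2 * g + 1 := by
    refine ⟨2 * a0 ^ 2 + 2 * a0 + w.im.im ^ 2 - (2 * a0 + 1) * w.im.im + 2 * (2 * b0 + a1) ^ 2 +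
      2 * a1 ^ 2, ?_⟩
    unfold gg
    rw [ha0, ha1, hb0]
    ring
  obtain ⟨g, hg⟩ := hg
  have hh' : ∃ k, hh w = 4 * k := by
    refine ⟨(2 * a0 + 1) * b0 + a1 * w.im.im, ?_⟩
    unfold hh
    rw [ha0, ha1, hb0]
    ring
  obtain ⟨k, hk⟩ := hh'
  have h5 := Int.even_mul_succ_self g
  obtain ⟨r, hr⟩ := h5
  have : N8 w = 8 * (r - 4 * k ^ 2) + 1 := by
    rw [N8_eq, hg, hk]
    linear_combination 4 * hr
  omega

end Pool.Agent.TM32
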