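import Pool.Agent.Lib_helper51.TM32.Defs2

/-!
# TM32, block E4: factorisation along a coprime product (helper33)
-/

set_option autoImplicit false

namespace Pool.Agent.TM32

namespace E33

theorem int_dvd_of {d m k : ℤ} {r : ℕ} (hc : IsCoprime m k) (h1 : d ∣ m ^ (r + 1)) (h2 : d ∣ m * k) :
    d ∣ m := by
  obtain ⟨u, v, huv⟩ := (hc.pow_left (m := r) : IsCoprime (m ^ r) k)
  have h3 : m = u * m ^ (r + 1) + v * (m * k) := by
    linear_combination -m * huv
  rw [h3]
  exact dvd_add (h1.mul_left _) (h2.mul_left _)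

end E33

open E33

theorem factor {w : Z8} {m k : ℕ} (hm : 0 < m) (hk : 0 < k) (hc : Nat.Coprime m k)
    (h : N8 w = m * k) : ∃ x y : Z8, w = x * y ∧ N8 x = m ∧ N8 y = k := by
  classical
  set x := EuclideanDomain.gcd w ((m : ℤ) : Z8) with hx
  have hx1 : x ∣ w := EuclideanDomain.gcd_dvd_left _ _
  have hx2 : x ∣ ((m : ℤ) : Z8) := EuclideanDomain.gcd_dvd_right _ _
  have hb : x = w * EuclideanDomain.gcdA w ((m : ℤ) : Z8) +
      ((m : ℤ) : Z8) * EuclideanDomain.gcdB w ((m : ℤ) : Z8) := EuclideanDomain.gcd_eq_gcd_ab _ _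
  obtain ⟨y, hy⟩ := hx1
  obtain ⟨m', hm'⟩ := hx2
  have hw0 : w ≠ 0 := by
    rintro rfl
    have h0 : N8 0 = 0 := N8_eq_zero.2 rfl
    rw [h0] at h
    have h1 : (0 : ℤ) < m * k := by positivity
    omega
  have hx0 : x ≠ 0 := by
    intro h0
    rw [h0, zero_mul] at hy
    exact hw0 hy
  have hcop : IsCoprime y m' := by
    refine ⟨EuclideanDomain.gcdA w ((m : ℤ) : Z8), EuclideanDomain.gcdB w ((m : ℤ) : Z8), ?_⟩
    apply mul_left_cancel₀ hx0
    linear_combination (-1 : Z8) * hb - EuclideanDomain.gcdA w ((m : ℤ) : Z8) * hy -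
      EuclideanDomain.gcdB w ((m : ℤ) : Z8) * hm'
  have hyk : y ∣ ((k : ℤ) : Z8) := by
    have h1 : w ∣ ((m : ℤ) : Z8) * ((k : ℤ) : Z8) := by
      have := dvd_N8 w
      rw [h] at this
      push_cast at this
      exact_mod_cast this
    obtain ⟨c, hc'⟩ := h1
    refine hcop.dvd_of_dvd_mul_left ⟨c, ?_⟩
    apply mul_left_cancel₀ hx0
    linear_combination hc' + c * hy - ((k : ℤ) : Z8) * hm'
  have hcm : IsCoprime (m : ℤ) (k : ℤ) := Nat.isCoprime_iff_coprime.2 hc
  have hxy : N8 x * N8 y = m * k := by rw [← N8_mul, ← hy, h]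
  have d1 : N8 x ∣ (m : ℤ) := by
    refine int_dvd_of (r := 3) hcm ?_ ?_
    · have := N8_dvd (Dvd.intro _ hm'.symm : x ∣ ((m : ℤ) : Z8))
      rw [N8_intCast] at this
      exact this
    · rw [← hxy]
      exact Dvd.intro _ rfl
  have d2 : N8 y ∣ (k : ℤ) := by
    refine int_dvd_of (r := 3) hcm.symm ?_ ?_
    · have := N8_dvd hyk
      rw [N8_intCast] at this
      exact this
    · rw [mul_comm (k : ℤ), ← hxy]
      exact Dvd.intro_left _ rfl
  have l1 := Int.le_of_dvd (by exact_mod_cast hm) d1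
  have l2 := Int.le_of_dvd (by exact_mod_cast hk) d2
  have p1 := N8_pos hx0
  have hm0 : (0 : ℤ) < m := by exact_mod_cast hm
  have hk0 : (0 : ℤ) < k := by exact_mod_cast hk
  refine ⟨x, y, hy, ?_, ?_⟩
  · nlinarith
  · nlinarith

theorem factor_unique {x y x' y' : Z8} {m k : ℕ} (hm : 0 < m) (hk : 0 < k) (hc : Nat.Coprime m k)
    (h : Associated (x * y) (x' * y')) (hx : N8 x = m) (hx' : N8 x' = m) (hy : N8 y = k)
    (hy' : N8 y' = k) : Associated x x' ∧ Associated y y' := by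
  have hcm : IsCoprime (m : ℤ) (k : ℤ) := Nat.isCoprime_iff_coprime.2 hc
  have hcz : IsCoprime ((m : ℤ) : Z8) ((k : ℤ) : Z8) := by
    obtain ⟨u, v, huv⟩ := hcm
    refine ⟨(u : Z8), (v : Z8), ?_⟩
    have := congrArg (fun z : ℤ => (z : Z8)) huv
    push_cast at this
    exact_mod_cast this
  have key : ∀ a b : Z8, N8 a = m → N8 b = k → IsCoprime a b := by
    intro a b ha hb
    have h1 := dvd_N8 a
    have h2 := dvd_N8 b
    rw [ha] at h1
    rw [hb] at h2
    exact (hcz.of_isCoprime_of_dvd_left h1).of_isCoprime_of_dvd_right h2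
  constructor
  · refine associated_of_dvd_dvd ?_ ?_
    · exact (key x y' hx hy').dvd_of_dvd_mul_right ((Dvd.intro _ rfl).trans h.dvd)
    · exact (key x' y hx' hy).dvd_of_dvd_mul_right ((Dvd.intro _ rfl).trans h.symm.dvd)
  · refine associated_of_dvd_dvd ?_ ?_
    · exact (key x' y hx' hy).symm.dvd_of_dvd_mul_left ((Dvd.intro_left _ rfl).trans h.dvd)
    · exact (key x y' hx hy').symm.dvd_of_dvd_mul_left ((Dvd.intro_left _ rfl).trans h.symm.dvd)

end Pool.Agent.TM32
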