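import Pool.Agent.Lib_helper51.TM32.Defs2

/-!
# TM32, block K2: pure group theory (helper33)
-/

set_option autoImplicit false

namespace Pool.Agent.TM32

namespace K33

variable {G : Type*} [CommGroup G]

/-- the elements killed by `2^(k+1)` are powers of `z` -/
theorem mem_pow {c : G} (hinv : ∀ g : G, g ^ 2 = 1 → g = 1 ∨ g = c) (k : ℕ) :
    ∀ z : G, z ^ 2 ^ k = c → ∀ x : G, x ^ 2 ^ (k + 1) = 1 → ∃ m : ℕ, x = z ^ m := by
  induction k with
  | zero =>
    intro z hz x hx
    rw [pow_zero, pow_one] at hz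
    rcases hinv x (by simpa using hx) with h | h
    · exact ⟨0, by rw [h, pow_zero]⟩
    · exact ⟨1, by rw [h, pow_one, hz]⟩
  | succ k ih =>
    intro z hz x hx
    obtain ⟨m, hm⟩ := ih (z ^ 2) (by rw [← pow_mul, ← pow_succ', hz]) (x ^ 2)
      (by rw [← pow_mul, ← pow_succ', hx])
    have h1 : (x * (z ^ m)⁻¹) ^ 2 = 1 := by
      rw [mul_pow, hm, inv_pow, ← pow_mul, ← pow_mul, mul_comm m 2, mul_inv_cancel]
    rcases hinv _ h1 with h | h
    · exact ⟨m, by rw [mul_inv_eq_one] at h; exact h⟩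
    · refine ⟨2 ^ (k + 1) + m, ?_⟩
      rw [pow_add, hz, ← h]
      group

theorem order_of {c : G} (hc : c ≠ 1) (hc2 : c ^ 2 = 1) (k : ℕ) {z : G} (hz : z ^ 2 ^ k = c) :
    orderOf z = 2 ^ (k + 1) := by
  refine orderOf_eq_prime_pow ?_ ?_
  · rw [hz]
    exact hc
  · rw [pow_succ, pow_mul, hz, hc2]

/-- the key step -/
theorem square_of [Finite G] {c : G} (hc : c ≠ 1) (hc2 : c ^ 2 = 1)
    (hinv : ∀ g : G, g ^ 2 = 1 → g = 1 ∨ g = c) (k : ℕ) {z : G} (hz : z ^ 2 ^ k = c)
    (hd : 2 ^ (k + 2) ∣ Nat.card G) : ∃ h, h ^ 2 = z := by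
  let φ : G →* G := powMonoidHom (2 ^ (k + 1))
  have hker : φ.ker = Subgroup.zpowers z := by
    ext x
    rw [MonoidHom.mem_ker]
    constructor
    · intro hx
      obtain ⟨m, rfl⟩ := mem_pow hinv k z hz x hx
      exact Subgroup.npow_mem_zpowers z m
    · intro hx
      obtain ⟨m, rfl⟩ := Subgroup.mem_zpowers_iff.1 hx
      show (z ^ m) ^ 2 ^ (k + 1) = 1
      rw [← zpow_natCast, ← zpow_mul, mul_comm, zpow_mul, zpow_natCast, pow_succ, pow_mul, hz, hc2,
        one_zpow]
  have hcard : Nat.card φ.ker = 2 ^ (k + 1) := by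
    rw [hker, Nat.card_zpowers, order_of hc hc2 k hz]
  have h1 : Nat.card φ.ker * Nat.card φ.range = Nat.card G := by
    rw [← Subgroup.index_ker φ, Subgroup.card_mul_index]
  have h2 : 2 ∣ Nat.card φ.range := by
    rw [← h1, hcard, pow_succ 2 (k + 1)] at hd
    exact Nat.dvd_of_mul_dvd_mul_left (by positivity) hd
  obtain ⟨⟨y, hy⟩, hy2⟩ := exists_prime_orderOf_dvd_card' (G := φ.range) 2 h2
  obtain ⟨g, hg⟩ := hy
  have hyo : orderOf y = 2 := by
    rw [← hy2]
    exact (Subgroup.orderOf_mk _ _).symm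
  have hyc : y = c := by
    have h3 : y ^ 2 = 1 := by rw [← hyo]; exact pow_orderOf_eq_one y
    rcases hinv y h3 with h | h
    · rw [h, orderOf_one] at hyo
      omega
    · exact h
  have hgc : g ^ 2 ^ (k + 1) = c := by
    rw [← hyc]
    exact hg
  cases k with
  | zero =>
    refine ⟨g, ?_⟩
    rw [pow_zero, pow_one] at hz
    rw [hz, ← hgc]
    norm_num
  | succ k =>
    have h3 : (z * (g ^ 2)⁻¹) ^ 2 ^ (k + 1) = 1 := by
      rw [mul_pow, hz, inv_pow, ← pow_mul, ← pow_succ', hgc, mul_inv_cancel]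
    obtain ⟨m, hm⟩ := mem_pow hinv k (z ^ 2) (by rw [← pow_mul, ← pow_succ', hz]) _ h3
    refine ⟨g * z ^ m, ?_⟩
    rw [mul_pow, ← pow_mul, mul_comm m 2, pow_mul, ← hm, mul_comm z, mul_inv_cancel_left]

end K33

open K33

/-- K2, pure group theory -/
theorem grp {G : Type*} [CommGroup G] [Finite G] (χ : G →* ℤˣ) (hχ : ∃ g, χ g = -1) (c E : G)
    (hc : c ≠ 1) (hinv : ∀ g : G, g ^ 2 = 1 → g = 1 ∨ g = c) (hE : E ^ 2 = c) :
    4 ∣ Nat.card G ∧ (χ E = -1 → Nat.card G % 8 = 4) ∧
      (χ E = 1 → 8 ∣ Nat.card G ∧ (∃ M, M ^ 2 = E) ∧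
        ∀ M, M ^ 2 = E → χ M = (-1) ^ (Nat.card G / 8)) := by
  have hsq : ∀ g : G, χ (g ^ 2) = 1 := by
    intro g
    rw [map_pow]
    exact Int.units_sq _
  obtain ⟨u, hu⟩ := hχ
  -- `c` has order two
  have hc2 : c ^ 2 = 1 := by
    have h2 : 2 ∣ Nat.card G := by
      have h1 : χ.ker.index = 2 := by
        rw [Subgroup.index_ker]
        have : χ.range = ⊤ := by
          rw [MonoidHom.range_eq_top]
          intro x
          rcases Int.units_eq_one_or x with h | h
          · exact ⟨1, by rw [map_one, h]⟩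
          · exact ⟨u, by rw [hu, h]⟩
        rw [this, Subgroup.card_top]
        simp
      rw [← h1]
      exact Subgroup.index_dvd_card _
    obtain ⟨y, hy⟩ := exists_prime_orderOf_dvd_card' (G := G) 2 h2
    have h3 : y ^ 2 = 1 := by rw [← hy]; exact pow_orderOf_eq_one y
    rcases hinv y h3 with h | h
    · rw [h, orderOf_one] at hy
      omega
    · rw [← h, h3]
  -- kernel of `χ` = squares
  have hχ1 : ∀ g : G, χ g = 1 → ∃ h, h ^ 2 = g := by
    let φ : G →* G := powMonoidHom 2
    have hker : φ.ker = Subgroup.zpowers c := by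
      ext x
      rw [MonoidHom.mem_ker]
      constructor
      · intro hx
        rcases hinv x hx with h | h
        · rw [h]
          exact Subgroup.one_mem _
        · rw [h]
          exact Subgroup.mem_zpowers c
      · intro hx
        obtain ⟨m, rfl⟩ := Subgroup.mem_zpowers_iff.1 hx
        show (c ^ m) ^ 2 = 1
        rw [← zpow_natCast, ← zpow_mul, mul_comm, zpow_mul, zpow_natCast, hc2, one_zpow]
    have hord : orderOf c = 2 := orderOf_eq_prime hc2 hc
    have h1 : Nat.card φ.ker * Nat.card φ.range = Nat.card G := by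
      rw [← Subgroup.index_ker φ, Subgroup.card_mul_index]
    have h2 := Subgroup.card_mul_index φ.range
    rw [hker, Nat.card_zpowers, hord] at h1
    have h3 : φ.range.index = 2 := by
      have hpos : 0 < Nat.card φ.range := Nat.card_pos
      rw [← h1, mul_comm 2] at h2
      exact Nat.eq_of_mul_eq_mul_left hpos h2
    intro g hg
    by_contra hn
    have h4 : g ∉ φ.range := by
      rintro ⟨h, hh⟩
      exact hn ⟨h, hh⟩
    have h5 : u ∉ φ.range := by
      rintro ⟨h, hh⟩
      have : χ u = 1 := by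
        rw [← hh]
        exact hsq h
      rw [this] at hu
      exact absurd hu (by decide)
    have h6 : g * u ∈ φ.range := (Subgroup.mul_mem_iff_of_index_two h3).2 (by tauto)
    obtain ⟨h, hh⟩ := h6
    have h7 : χ (g * u) = 1 := by
      rw [← hh]
      exact hsq h
    rw [map_mul, hg, hu] at h7
    exact absurd h7 (by decide)
  have hE1 : E ^ 2 ^ 1 = c := by rw [pow_one]; exact hE
  have hn4 : 4 ∣ Nat.card G := by
    have := orderOf_dvd_natCard E
    rw [order_of hc hc2 1 hE1] at this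
    exact this
  refine ⟨hn4, ?_, ?_⟩
  · intro h
    by_contra hne
    have h8 : 8 ∣ Nat.card G := by omega
    obtain ⟨g, hg⟩ := square_of hc hc2 hinv 1 hE1 (by norm_num; exact h8)
    rw [← hg, hsq] at h
    exact absurd h (by decide)
  · intro h
    obtain ⟨M, hM⟩ := hχ1 E h
    have key : ∀ M : G, M ^ 2 = E → M ^ 2 ^ 2 = c := by
      intro M hM
      rw [pow_two 2, pow_mul, hM, hE]
    have h8 : 8 ∣ Nat.card G := by
      have := orderOf_dvd_natCard M
      rw [order_of hc hc2 2 (key M hM)] at this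
      exact this
    refine ⟨h8, ⟨M, hM⟩, ?_⟩
    intro M hM
    rcases Int.units_eq_one_or (χ M) with h1 | h1
    · obtain ⟨L, hL⟩ := hχ1 M h1
      have h16 : 16 ∣ Nat.card G := by
        have := orderOf_dvd_natCard L
        rw [order_of hc hc2 3 (z := L) (by
          rw [pow_succ 2 2, mul_comm, pow_mul, hL]
          exact key M hM)] at this
        exact this
      obtain ⟨r, hr⟩ := h16
      have h2 : Nat.card G / 8 = 2 * r := by omega
      rw [h1, h2, pow_mul]
      norm_num
    · have h16 : ¬ 16 ∣ Nat.card G := by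
        intro h16
        obtain ⟨g, hg⟩ := square_of hc hc2 hinv 2 (key M hM) (by norm_num; exact h16)
        rw [← hg, hsq] at h1
        exact absurd h1 (by decide)
      obtain ⟨r, hr⟩ := h8
      have h2 : Nat.card G / 8 = 2 * (r / 2) + 1 := by omega
      rw [h1, h2, pow_succ, pow_mul]
      norm_num

end Pool.Agent.TM32
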