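import Pool.Agent.Lib_helper33.TM32.Zolo

/-!
# The Jacobi symbol `zq V A` on a commutative ring (helper33, project TM32)
-/

namespace Pool.Agent.Zolo33

open Function Ideal

variable {R : Type*} [CommRing R]

open Classical in
/-- the Jacobi symbol `(V / I)`: sign of the multiplication by `V` on `R / I` -/
noncomputable def zqI (V : R) (I : Ideal R) : ℤ :=
  if h : Finite (R ⧸ I) then
    haveI := h
    sg (fun x : R ⧸ I => Ideal.Quotient.mk I V * x) else 0

/-- the Jacobi symbol `(V / A)`: sign of the multiplication by `V` on `R / (A)` -/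
noncomputable def zq (V A : R) : ℤ := zqI V (Ideal.span {A})

theorem zq_def (V A : R) [h : Finite (R ⧸ Ideal.span {A})] : zq V A =
    sg (fun x : R ⧸ Ideal.span {A} => Ideal.Quotient.mk (Ideal.span {A}) V * x) := by
  unfold zq zqI
  rw [dif_pos h]

theorem zq_congr_ideal {V A B : R} (h : Ideal.span {A} = Ideal.span {B}) : zq V A = zq V B := by
  unfold zq
  rw [h]

theorem zq_mul_left (V W A : R) : zq (V * W) A = zq V A * zq W A := by
  by_cases h : Finite (R ⧸ Ideal.span {A})
  · rw [zq_def, zq_def, zq_def, ← sg_comp]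
    congr 1
    funext x
    show Ideal.Quotient.mk (Ideal.span {A}) (V * W) * x =
      Ideal.Quotient.mk (Ideal.span {A}) V * (Ideal.Quotient.mk (Ideal.span {A}) W * x)
    rw [map_mul, mul_assoc]
  · unfold zq zqI
    rw [dif_neg h, dif_neg h, dif_neg h, mul_zero]

theorem zq_one_left (A : R) [Finite (R ⧸ Ideal.span {A})] : zq 1 A = 1 := by
  rw [zq_def]
  have : (fun x : R ⧸ Ideal.span {A} => Ideal.Quotient.mk (Ideal.span {A}) 1 * x) =
      fun x => x := by
    funext x
    rw [map_one, one_mul]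
  rw [this, sg_id]

theorem zq_congr {V W A : R} (h : A ∣ V - W) : zq V A = zq W A := by
  have h1 : Ideal.Quotient.mk (Ideal.span {A}) V = Ideal.Quotient.mk (Ideal.span {A}) W :=
    Ideal.Quotient.eq.2 (Ideal.mem_span_singleton.2 h)
  unfold zq zqI
  rw [h1]

theorem zq_unit_right (V : R) {A : R} (hA : IsUnit A) : zq V A = 1 := by
  have h1 : Ideal.span {A} = ⊤ := Ideal.span_singleton_eq_top.2 hA
  have h2 : Subsingleton (R ⧸ Ideal.span {A}) := Ideal.Quotient.subsingleton_iff.2 h1
  have h3 : Finite (R ⧸ Ideal.span {A}) := inferInstance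
  rw [zq_def]
  have : (fun x : R ⧸ Ideal.span {A} => Ideal.Quotient.mk (Ideal.span {A}) V * x) =
      fun x => x := by
    funext x
    exact Subsingleton.elim _ _
  rw [this, sg_id]

theorem zq_assoc {V A B : R} (h : Associated A B) : zq V A = zq V B :=
  zq_congr_ideal (le_antisymm (Ideal.span_singleton_le_span_singleton.2 h.symm.dvd)
    (Ideal.span_singleton_le_span_singleton.2 h.dvd))

/-- the symbol vanishes iff `V` and `A` are not coprime -/
theorem zq_ne_zero_iff (V A : R) [Finite (R ⧸ Ideal.span {A})] : zq V A ≠ 0 ↔ IsCoprime V A := by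
  have key : Bijective (fun x : R ⧸ Ideal.span {A} =>
      Ideal.Quotient.mk (Ideal.span {A}) V * x) ↔ IsCoprime V A := by
    constructor
    · intro h
      obtain ⟨y, hy⟩ := h.2 1
      obtain ⟨z, rfl⟩ := Ideal.Quotient.mk_surjective y
      have h1 : Ideal.Quotient.mk (Ideal.span {A}) (V * z) = Ideal.Quotient.mk (Ideal.span {A}) 1 := by
        rw [map_mul, map_one]
        exact hy
      obtain ⟨w, hw⟩ := Ideal.mem_span_singleton.1 (Ideal.Quotient.eq.1 h1)
      exact ⟨z, -w, by linear_combination hw⟩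
    · rintro ⟨a, b, hab⟩
      apply Finite.injective_iff_bijective.1
      intro x y hxy
      have h1 : Ideal.Quotient.mk (Ideal.span {A}) a * Ideal.Quotient.mk (Ideal.span {A}) V = 1 := by
        rw [← map_mul, ← map_one (Ideal.Quotient.mk (Ideal.span {A}))]
        refine Ideal.Quotient.eq.2 (Ideal.mem_span_singleton.2 ⟨-b, ?_⟩)
        linear_combination hab
      have h2 : Ideal.Quotient.mk (Ideal.span {A}) V * x =
        Ideal.Quotient.mk (Ideal.span {A}) V * y := hxy
      calc x = (Ideal.Quotient.mk (Ideal.span {A}) a * Ideal.Quotient.mk (Ideal.span {A}) V) * x := by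
            rw [h1, one_mul]
        _ = Ideal.Quotient.mk (Ideal.span {A}) a * (Ideal.Quotient.mk (Ideal.span {A}) V * x) := by
            rw [mul_assoc]
        _ = (Ideal.Quotient.mk (Ideal.span {A}) a * Ideal.Quotient.mk (Ideal.span {A}) V) * y := by
            rw [h2, mul_assoc]
        _ = y := by rw [h1, one_mul]
  rw [← key, zq_def]
  constructor
  · intro h
    by_contra h1
    exact h (sg_of_not h1)
  · intro h
    rcases sg_ne_zero h with h1 | h1 <;> rw [h1] <;> norm_num

theorem zq_eq_zero {V A : R} (h : ¬ IsCoprime V A) : zq V A = 0 := by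
  by_cases hf : Finite (R ⧸ Ideal.span {A})
  · by_contra h1
    exact h ((zq_ne_zero_iff V A).1 h1)
  · unfold zq zqI
    rw [dif_neg hf]

theorem zq_cases (V A : R) [Finite (R ⧸ Ideal.span {A})] (h : IsCoprime V A) :
    zq V A = 1 ∨ zq V A = -1 := by
  have h1 := (zq_ne_zero_iff V A).2 h
  rw [zq_def] at h1 ⊢
  apply sg_ne_zero
  by_contra h2
  exact h1 (sg_of_not h2)

theorem zq_sq (V A : R) [Finite (R ⧸ Ideal.span {A})] (h : IsCoprime V A) :
    zq V A * zq V A = 1 := by
  rcases zq_cases V A h with h1 | h1 <;> rw [h1] <;> norm_num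

theorem finite_of_dvd {A B : R} (h : A ∣ B) [Finite (R ⧸ Ideal.span {B})] :
    Finite (R ⧸ Ideal.span {A}) := by
  have hle : Ideal.span {B} ≤ Ideal.span {A} := Ideal.span_singleton_le_span_singleton.2 h
  exact Finite.of_surjective _ (Ideal.Quotient.factor_surjective hle)

/-- transport along a surjection with kernel `(A)` -/
theorem zq_hom {T : Type*} [CommRing T] [Finite T] (φ : R →+* T) (hφ : Surjective φ) (A : R)
    (hk : ∀ x, φ x = 0 ↔ A ∣ x) (V : R) : zq V A = sg (fun x : T => φ V * x) := by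
  have hker : RingHom.ker φ = Ideal.span {A} := by
    ext x
    rw [RingHom.mem_ker, hk, Ideal.mem_span_singleton]
  have e1 : (R ⧸ Ideal.span {A}) ≃+* T :=
    (Ideal.quotEquivOfEq hker.symm).trans (RingHom.quotientKerEquivOfSurjective hφ)
  let e : (R ⧸ Ideal.span {A}) ≃+* T :=
    (Ideal.quotEquivOfEq hker.symm).trans (RingHom.quotientKerEquivOfSurjective hφ)
  have : Finite (R ⧸ Ideal.span {A}) := Finite.of_equiv T e.symm.toEquiv
  have he : ∀ V : R, e (Ideal.Quotient.mk (Ideal.span {A}) V) = φ V := by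
    intro V
    rfl
  rw [zq_def]
  symm
  refine sg_conj e.toEquiv _ _ ?_
  intro x
  show φ V * e x = e (Ideal.Quotient.mk (Ideal.span {A}) V * x)
  rw [map_mul, he]

theorem zq_map {T : Type*} [CommRing T] (e : R ≃+* T) (V A : R)
    [Finite (R ⧸ Ideal.span {A})] : zq (e V) (e A) = zq V A := by
  have h := zq_hom (T := R ⧸ Ideal.span {A})
    ((Ideal.Quotient.mk (Ideal.span {A})).comp (e.symm : T →+* R))
    (Ideal.Quotient.mk_surjective.comp e.symm.surjective) (e A) (by
      intro x
      rw [RingHom.comp_apply, Ideal.Quotient.eq_zero_iff_mem, Ideal.mem_span_singleton]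
      constructor
      · rintro ⟨c, hc⟩
        refine ⟨e c, ?_⟩
        have h1 := congrArg e hc
        rw [map_mul] at h1
        simpa using h1
      · rintro ⟨c, hc⟩
        refine ⟨e.symm c, ?_⟩
        have h1 := congrArg e.symm hc
        rw [map_mul] at h1
        simpa using h1) (e V)
  rw [h, zq_def]
  congr 1
  funext x
  congr 1
  simp

/-- multiplicativity in the lower argument -/
theorem zq_mul_right [IsDomain R] (V : R) {A B : R} (hA : A ≠ 0)
    [Finite (R ⧸ Ideal.span {A * B})] (hodd : Odd (Nat.card (R ⧸ Ideal.span {A * B}))) :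
    zq V (A * B) = zq V A * zq V B := by
  have hfA : Finite (R ⧸ Ideal.span {A}) := finite_of_dvd (Dvd.intro B rfl)
  have hfB : Finite (R ⧸ Ideal.span {B}) := finite_of_dvd (Dvd.intro_left A rfl)
  have hle : Ideal.span {A * B} ≤ Ideal.span {A} :=
    Ideal.span_singleton_le_span_singleton.2 (Dvd.intro B rfl)
  let π : (R ⧸ Ideal.span {A * B}) →+* (R ⧸ Ideal.span {A}) := Ideal.Quotient.factor hle
  have hle2 : (Ideal.span {B} : Submodule R R) ≤
      Submodule.comap (LinearMap.mulLeft R A) (Ideal.span {A * B}) := by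
    intro x hx
    obtain ⟨c, rfl⟩ := Ideal.mem_span_singleton.1 hx
    rw [Submodule.mem_comap, LinearMap.mulLeft_apply]
    exact Ideal.mem_span_singleton.2 ⟨c, by ring⟩
  let i : (R ⧸ Ideal.span {B}) →ₗ[R] (R ⧸ Ideal.span {A * B}) :=
    Submodule.mapQ _ _ (LinearMap.mulLeft R A) hle2
  have hi : ∀ x : R, i (Ideal.Quotient.mk (Ideal.span {B}) x) =
      Ideal.Quotient.mk (Ideal.span {A * B}) (A * x) := fun x => rfl
  have hπ : ∀ x : R, π (Ideal.Quotient.mk (Ideal.span {A * B}) x) =
      Ideal.Quotient.mk (Ideal.span {A}) x := fun x => rfl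
  have h := sg_ext i.toAddMonoidHom (π : (R ⧸ Ideal.span {A * B}) →+ (R ⧸ Ideal.span {A}))
    ?_ (Ideal.Quotient.factor_surjective hle) ?_ ?_
    (AddMonoidHom.mulLeft (Ideal.Quotient.mk (Ideal.span {B}) V))
    (AddMonoidHom.mulLeft (Ideal.Quotient.mk (Ideal.span {A * B}) V))
    (AddMonoidHom.mulLeft (Ideal.Quotient.mk (Ideal.span {A}) V)) ?_ ?_ hodd
  · rw [zq_def, zq_def, zq_def]
    exact h.trans (mul_comm _ _)
  · intro x y hxy
    obtain ⟨x, rfl⟩ := Ideal.Quotient.mk_surjective x
    obtain ⟨y, rfl⟩ := Ideal.Quotient.mk_surjective y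
    have h1 : Ideal.Quotient.mk (Ideal.span {A * B}) (A * x) =
        Ideal.Quotient.mk (Ideal.span {A * B}) (A * y) := hxy
    obtain ⟨c, hc⟩ := Ideal.mem_span_singleton.1 (Ideal.Quotient.eq.1 h1)
    refine Ideal.Quotient.eq.2 (Ideal.mem_span_singleton.2 ⟨c, ?_⟩)
    apply mul_left_cancel₀ hA
    linear_combination hc
  · intro x hx
    obtain ⟨x, rfl⟩ := Ideal.Quotient.mk_surjective x
    have h1 : Ideal.Quotient.mk (Ideal.span {A}) x = 0 := hx
    obtain ⟨c, hc⟩ := Ideal.mem_span_singleton.1 (Ideal.Quotient.eq_zero_iff_mem.1 h1)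
    refine ⟨Ideal.Quotient.mk (Ideal.span {B}) c, ?_⟩
    show Ideal.Quotient.mk (Ideal.span {A * B}) (A * c) = _
    rw [hc]
  · intro y
    obtain ⟨y, rfl⟩ := Ideal.Quotient.mk_surjective y
    show Ideal.Quotient.mk (Ideal.span {A}) (A * y) = 0
    exact Ideal.Quotient.eq_zero_iff_mem.2 (Ideal.mem_span_singleton.2 ⟨y, rfl⟩)
  · intro y
    obtain ⟨y, rfl⟩ := Ideal.Quotient.mk_surjective y
    show Ideal.Quotient.mk (Ideal.span {A * B}) V * Ideal.Quotient.mk (Ideal.span {A * B}) (A * y) =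
      i (Ideal.Quotient.mk (Ideal.span {B}) V * Ideal.Quotient.mk (Ideal.span {B}) y)
    rw [← map_mul, ← map_mul, hi]
    congr 1
    ring
  · intro x
    obtain ⟨x, rfl⟩ := Ideal.Quotient.mk_surjective x
    show π (Ideal.Quotient.mk (Ideal.span {A * B}) V * Ideal.Quotient.mk (Ideal.span {A * B}) x) =
      Ideal.Quotient.mk (Ideal.span {A}) V * π (Ideal.Quotient.mk (Ideal.span {A * B}) x)
    rw [map_mul, hπ, hπ]

/-- if an odd integer is divisible by `A` then `R / (A)` has odd order -/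
theorem odd_card_quot {A : R} [Finite (R ⧸ Ideal.span {A})] {n : ℤ} (hn : Odd n)
    (hd : A ∣ (n : R)) : Odd (Nat.card (R ⧸ Ideal.span {A})) := by
  classical
  have := Fintype.ofFinite (R ⧸ Ideal.span {A})
  rw [← Nat.not_even_iff_odd, even_iff_two_dvd, Nat.card_eq_fintype_card]
  intro h
  have : Fact (Nat.Prime 2) := ⟨Nat.prime_two⟩
  obtain ⟨x, hx⟩ := exists_prime_addOrderOf_dvd_card 2 h
  have h2 : x + x = 0 := by
    have := addOrderOf_nsmul_eq_zero x
    rw [hx, two_nsmul] at this
    exact this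
  have h3 : (n : R ⧸ Ideal.span {A}) = 0 := by
    have : Ideal.Quotient.mk (Ideal.span {A}) ((n : ℤ) : R) = 0 :=
      Ideal.Quotient.eq_zero_iff_mem.2 (Ideal.mem_span_singleton.2 hd)
    rwa [map_intCast] at this
  obtain ⟨k, hk⟩ := hn
  have h4 : x = 0 := by
    have h5 : (n : R ⧸ Ideal.span {A}) * x = 0 := by rw [h3, zero_mul]
    rw [hk] at h5
    push_cast at h5
    linear_combination h5 - (k : R ⧸ Ideal.span {A}) * h2
  rw [h4, addOrderOf_zero] at hx
  omega

/-! ## the rational symbol -/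

theorem finite_int {n : ℤ} (hn : n ≠ 0) : Finite (ℤ ⧸ Ideal.span {n}) := by
  have : NeZero n.natAbs := ⟨Int.natAbs_ne_zero.2 hn⟩
  exact Finite.of_equiv _ (Int.quotientSpanEquivZMod n).symm.toEquiv

theorem zq_prime (a : ℤ) (p : ℕ) [hp : Fact p.Prime] (h2 : p ≠ 2) :
    zq a (p : ℤ) = legendreSym p a := by
  have h := zq_hom (Int.castRingHom (ZMod p)) (ZMod.ringHom_surjective _) (p : ℤ) (by
    intro x
    exact ZMod.intCast_zmod_eq_zero_iff_dvd x p |>.trans Iff.rfl) a
  rw [h, sg_field (by rw [ZMod.ringChar_zmod_n]; exact h2)]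
  rfl

theorem zq_int (a : ℤ) (n : ℕ) (hn : Odd n) : zq a (n : ℤ) = jacobiSym a n := by
  induction n using Nat.recOnMul with
  | zero => exact absurd hn (by decide)
  | one =>
    rw [jacobiSym.one_right]
    exact zq_unit_right a (by simp)
  | prime p hp =>
    have : Fact p.Prime := ⟨hp⟩
    rw [zq_prime a p (by rintro rfl; exact absurd hn (by decide))]
    exact jacobiSym.legendreSym.to_jacobiSym p a
  | mul x y hx hy =>
    obtain ⟨h1, h2⟩ := Nat.odd_mul.1 hn
    have hx0 : x ≠ 0 := by rintro rfl; exact absurd h1 (by decide)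
    have hy0 : y ≠ 0 := by rintro rfl; exact absurd h2 (by decide)
    have : NeZero x := ⟨hx0⟩
    have : NeZero y := ⟨hy0⟩
    have hxy : ((x : ℤ) * (y : ℤ)) ≠ 0 := by
      exact_mod_cast Nat.mul_ne_zero hx0 hy0
    have := finite_int hxy
    rw [jacobiSym.mul_right, ← hx h1, ← hy h2, Nat.cast_mul]
    refine zq_mul_right a (by exact_mod_cast hx0) (odd_card_quot (n := (x : ℤ) * y) ?_ ?_)
    · exact_mod_cast hn
    · simp

/-- multiplication by an integer on `ZMod n` -/
theorem sg_zmod (n : ℕ) [NeZero n] (hn : Odd n) (a : ℤ) :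
    sg (fun x : ZMod n => (a : ZMod n) * x) = jacobiSym a n := by
  rw [← zq_int a n hn]
  exact (zq_hom (Int.castRingHom (ZMod n)) (ZMod.ringHom_surjective _) (n : ℤ) (by
    intro x
    exact ZMod.intCast_zmod_eq_zero_iff_dvd x n |>.trans Iff.rfl) a).symm

end Pool.Agent.Zolo33
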