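import Pool.Agent.Lib_helper51.TM32.Defs
import Pool.Agent.Lib_helper33.TM32.Qs

/-!
# TM32, block Z1: the quadratic symbol of `ℤ[√-2]` (helper33)
-/

set_option autoImplicit false

namespace Pool.Agent.TM32.Z33

open Zsqrtd Function Pool.Agent.Zolo33

/-! ## finiteness -/

theorem norm_dvd (A : Zs) : A ∣ ((A.norm : ℤ) : Zs) := by
  rw [Zsqrtd.norm_eq_mul_conj]
  exact Dvd.intro _ rfl

theorem fin_int {n : ℤ} (hn : n ≠ 0) : Finite (Zs ⧸ Ideal.span {(n : Zs)}) := by
  have : NeZero n.natAbs := ⟨Int.natAbs_ne_zero.2 hn⟩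
  let f : Fin n.natAbs × Fin n.natAbs → Zs ⧸ Ideal.span {(n : Zs)} := fun p =>
    Ideal.Quotient.mk _ (⟨(p.1 : ℕ), (p.2 : ℕ)⟩ : Zs)
  refine Finite.of_surjective f ?_
  intro y
  obtain ⟨x, rfl⟩ := Ideal.Quotient.mk_surjective y
  have hm : (0 : ℤ) < n.natAbs := by
    have := Int.natAbs_pos.2 hn
    exact_mod_cast this
  have key : ∀ u : ℤ, ∃ (k : Fin n.natAbs) (c : ℤ), ((k : ℕ) : ℤ) - u = n * c := by
    intro u
    have h1 := Int.emod_nonneg u hm.ne'
    have h2 := Int.emod_lt_of_pos u hm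
    refine ⟨⟨(u % n.natAbs).toNat, by omega⟩, -(n.sign * (u / n.natAbs)), ?_⟩
    have h3 : (((u % n.natAbs).toNat : ℕ) : ℤ) = u % n.natAbs := Int.toNat_of_nonneg h1
    show (((u % n.natAbs).toNat : ℕ) : ℤ) - u = _
    rw [h3]
    have h4 := Int.emod_add_mul_ediv u n.natAbs
    have h5 : n * n.sign = n.natAbs := Int.mul_sign_self n
    linear_combination h4 + (u / n.natAbs) * h5
  obtain ⟨k, c, hk⟩ := key x.re
  obtain ⟨l, d, hl⟩ := key x.im
  refine ⟨(k, l), ?_⟩
  refine Ideal.Quotient.eq.2 (Ideal.mem_span_singleton.2 ⟨⟨c, d⟩, ?_⟩)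
  ext
  · simp only [Zsqrtd.re_sub, Zsqrtd.re_mul, Zsqrtd.re_intCast, Zsqrtd.im_intCast]
    linear_combination hk
  · simp only [Zsqrtd.im_sub, Zsqrtd.im_mul, Zsqrtd.re_intCast, Zsqrtd.im_intCast]
    linear_combination hl

theorem fin_of {A : Zs} (hA : A ≠ 0) : Finite (Zs ⧸ Ideal.span {A}) := by
  have := fin_int (n_pos hA).ne'
  exact finite_of_dvd (norm_dvd A)

theorem ne_zero_of_odd {A : Zs} (hA : A.norm % 2 = 1) : A ≠ 0 := by
  rintro rfl
  simp at hA

theorem fin_odd {A : Zs} (hA : A.norm % 2 = 1) : Finite (Zs ⧸ Ideal.span {A}) :=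
  fin_of (ne_zero_of_odd hA)

theorem zq_mr (V : Zs) {A B : Zs} (hA : A.norm % 2 = 1) (hB : B.norm % 2 = 1) :
    zq V (A * B) = zq V A * zq V B := by
  have hAB : (A * B).norm % 2 = 1 := by
    rw [Zsqrtd.norm_mul, Int.mul_emod, hA, hB]
    norm_num
  have := fin_odd hAB
  exact zq_mul_right V (ne_zero_of_odd hA) (odd_card_quot (Int.odd_iff.2 hAB) (norm_dvd _))

/-! ## the symbol for a primitive denominator -/

theorem coprime_re {A : Zs} (hN : A.norm % 2 = 1) (hg : Int.gcd A.re A.im = 1) :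
    IsCoprime A.re A.norm := by
  rw [Int.isCoprime_iff_gcd_eq_one]
  by_contra h
  obtain ⟨p, hp, hd⟩ := Nat.exists_prime_and_dvd h
  have h1 : (p : ℤ) ∣ A.re := (Int.natCast_dvd_natCast.2 hd).trans (Int.gcd_dvd_left _ _)
  have h2 : (p : ℤ) ∣ A.norm := (Int.natCast_dvd_natCast.2 hd).trans (Int.gcd_dvd_right _ _)
  have hp' : Prime (p : ℤ) := Nat.prime_iff_prime_int.1 hp
  have h3 : (p : ℤ) ∣ 2 * A.im ^ 2 := by
    have : 2 * A.im ^ 2 = A.norm - A.re * A.re := by
      rw [nv]
      ring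
    rw [this]
    exact dvd_sub h2 (h1.mul_left _)
  rcases hp'.dvd_or_dvd h3 with h4 | h4
  · have h5 : (p : ℤ) ∣ 2 := h4
    have h6 : p ≤ 2 := Nat.le_of_dvd (by norm_num) (by exact_mod_cast h5)
    have h7 := hp.two_le
    have h8 : p = 2 := by omega
    subst h8
    obtain ⟨c, hc⟩ := h2
    push_cast at hc
    omega
  · have h5 := hp'.dvd_of_dvd_pow h4
    have h6 : p ∣ Int.gcd A.re A.im := by
      have := Int.dvd_coe_gcd h1 h5
      exact_mod_cast this
    rw [hg] at h6
    exact hp.one_lt.ne' (Nat.dvd_one.1 h6)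

theorem zq_prim (V : Zs) {A : Zs} (hN : A.norm % 2 = 1) (hg : Int.gcd A.re A.im = 1) :
    zq V A = jacobiSym ((V.re * A.re + 2 * V.im * A.im) * A.re) A.norm.natAbs := by
  have hA := ne_zero_of_odd hN
  have hpos := n_pos hA
  set n := A.norm.natAbs with hn
  have hnn : (n : ℤ) = A.norm := by rw [hn]; exact Int.natAbs_of_nonneg hpos.le
  have : NeZero n := ⟨by rw [hn]; exact Int.natAbs_ne_zero.2 hpos.ne'⟩
  have hodd : Odd n := by
    rw [Nat.odd_iff]
    have := hnn
    omega
  obtain ⟨u, v, huv⟩ := coprime_re hN hg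
  -- `u` is the inverse of `A.re`
  have hu : (A.re : ZMod n) * (u : ZMod n) = 1 := by
    have h1 := congrArg (fun z : ℤ => (z : ZMod n)) huv
    have h2 : ((A.norm : ℤ) : ZMod n) = 0 := by
      rw [← hnn]
      simp
    push_cast at h1
    rw [h2] at h1
    linear_combination h1
  have hnorm : (A.re : ZMod n) ^ 2 + 2 * (A.im : ZMod n) ^ 2 = 0 := by
    have h2 : ((A.norm : ℤ) : ZMod n) = 0 := by
      rw [← hnn]
      simp
    rw [nv] at h2
    push_cast at h2
    exact h2
  have ht : (2 * (A.im : ZMod n) * u) * (2 * (A.im : ZMod n) * u) = ((-2 : ℤ) : ZMod n) := by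
    push_cast
    linear_combination (2 * (u : ZMod n) ^ 2) * hnorm - 2 * (1 + (A.re : ZMod n) * u) * hu
  let φ : Zs →+* ZMod n := Zsqrtd.lift ⟨2 * (A.im : ZMod n) * u, ht⟩
  have hφ : ∀ x : Zs, φ x = (x.re : ZMod n) + x.im * (2 * (A.im : ZMod n) * u) := by
    intro x
    rfl
  have hφ2 : ∀ x : Zs, (A.re : ZMod n) * φ x = ((x.re * A.re + 2 * x.im * A.im : ℤ) : ZMod n) := by
    intro x
    rw [hφ]
    push_cast
    linear_combination (2 * (x.im : ZMod n) * A.im) * hu
  have hsurj : Surjective φ := by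
    intro y
    obtain ⟨z, rfl⟩ := ZMod.intCast_surjective y
    exact ⟨(z : Zs), by rw [map_intCast]⟩
  have hker : ∀ x : Zs, φ x = 0 ↔ A ∣ x := by
    intro x
    constructor
    · intro h
      have h1 : ((x.re * A.re + 2 * x.im * A.im : ℤ) : ZMod n) = 0 := by
        rw [← hφ2, h, mul_zero]
      have h1' : (x.re : ZMod n) * A.re + 2 * x.im * A.im = 0 := by
        push_cast at h1
        exact h1
      have h2 : ((x.im * A.re - x.re * A.im : ℤ) : ZMod n) = 0 := by
        push_cast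
        linear_combination (-(u : ZMod n) * A.im) * h1' + (u : ZMod n) * x.im * hnorm -
          ((x.im : ZMod n) * A.re - x.re * A.im) * hu
      rw [ZMod.intCast_zmod_eq_zero_iff_dvd, hnn] at h1 h2
      obtain ⟨c, hc⟩ := h1
      obtain ⟨d, hd⟩ := h2
      refine ⟨⟨c, d⟩, ?_⟩
      have h3 : ((A.norm : ℤ) : Zs) * x = ((A.norm : ℤ) : Zs) * (A * ⟨c, d⟩) := by
        rw [Zsqrtd.norm_eq_mul_conj]
        have h4 : x * star A = ((A.norm : ℤ) : Zs) * ⟨c, d⟩ := by
          ext
          · simp only [Zsqrtd.re_mul, Zsqrtd.re_star, Zsqrtd.im_star, Zsqrtd.re_intCast,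
              Zsqrtd.im_intCast]
            linear_combination hc
          · simp only [Zsqrtd.im_mul, Zsqrtd.re_star, Zsqrtd.im_star, Zsqrtd.re_intCast,
              Zsqrtd.im_intCast]
            linear_combination hd
        rw [Zsqrtd.norm_eq_mul_conj] at h4
        linear_combination A * h4
      have h5 : ((A.norm : ℤ) : Zs) ≠ 0 := by
        intro h6
        have := congrArg Zsqrtd.re h6
        simp only [Zsqrtd.re_intCast, Zsqrtd.re_zero] at this
        exact hA (n_eq_zero.1 this)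
      exact mul_left_cancel₀ h5 h3
    · rintro ⟨c, rfl⟩
      rw [map_mul]
      have h1 : (A.re : ZMod n) * φ A = 0 := by
        rw [hφ2]
        push_cast
        linear_combination hnorm
      have h2 : φ A = 0 := by
        linear_combination (u : ZMod n) * h1 - φ A * hu
      rw [h2, zero_mul]
  rw [zq_hom φ hsurj A hker V]
  have h6 : φ V = (((V.re * A.re + 2 * V.im * A.im) * u : ℤ) : ZMod n) := by
    rw [Int.cast_mul, ← hφ2]
    linear_combination (-φ V) * hu
  rw [h6, sg_zmod n hodd, jacobiSym.mul_left, jacobiSym.mul_left]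
  congr 1
  -- `J(u | n) = J(A.re | n)`
  have h7 : jacobiSym A.re n * jacobiSym u n = 1 := by
    rw [← jacobiSym.mul_left]
    have h8 : (A.re * u) % n = 1 % n := by
      have h9 : ((A.re * u : ℤ) : ZMod n) = ((1 : ℤ) : ZMod n) := by
        push_cast
        exact hu
      exact (ZMod.intCast_eq_intCast_iff _ _ n).1 h9
    rw [jacobiSym.mod_left, h8, ← jacobiSym.mod_left, jacobiSym.one_left]
  rcases Int.isUnit_iff.1 (IsUnit.of_mul_eq_one _ h7) with h8 | h8 <;> rw [h8] at h7 ⊢ <;> omega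

/-! ## linear maps of the plane over a field -/

section plane

variable {F : Type*} [Field F] [Fintype F] [DecidableEq F]

/-- the linear map with matrix `(a, b; c, d)` -/
def mt (a b c d : F) : F × F → F × F := fun p => (a * p.1 + b * p.2, c * p.1 + d * p.2)

omit [DecidableEq F] in
theorem odd_card_prod (hF : ringChar F ≠ 2) : Odd (Nat.card (F × F)) := by
  rw [Nat.card_prod, Nat.card_eq_fintype_card]
  have h := FiniteField.odd_card_of_char_ne_two hF
  exact (Nat.odd_iff.2 h).mul (Nat.odd_iff.2 h)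

theorem sg_lower (hF : ringChar F ≠ 2) (a c d : F) :
    sg (mt a 0 c d) = quadraticChar F (a * d) := by
  have h := sg_ext (AddMonoidHom.inr F F) (AddMonoidHom.fst F F) (by
      intro x y hxy
      exact congrArg Prod.snd hxy) (fun x => ⟨(x, 0), rfl⟩) (by
      rintro ⟨x, y⟩ hx
      refine ⟨y, ?_⟩
      have : x = 0 := hx
      rw [this]
      rfl) (fun y => rfl) (AddMonoidHom.mulLeft d)
    (AddMonoidHom.mk' (mt a 0 c d) (by
      intro p q
      unfold mt
      ext
      · simp only [Prod.fst_add, Prod.snd_add]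
        ring
      · simp only [Prod.fst_add, Prod.snd_add]
        ring)) (AddMonoidHom.mulLeft a) (by
      intro y
      show mt a 0 c d (0, y) = (0, d * y)
      unfold mt
      simp) (by
      intro p
      show a * p.1 + 0 * p.2 = a * p.1
      ring) (odd_card_prod hF)
  rw [map_mul]
  have h1 := sg_field hF a
  have h2 := sg_field hF d
  rw [← h1, ← h2, mul_comm]
  exact h

theorem sg_upper (hF : ringChar F ≠ 2) (a b d : F) :
    sg (mt a b 0 d) = quadraticChar F (a * d) := by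
  have h := sg_ext (AddMonoidHom.inl F F) (AddMonoidHom.snd F F) (by
      intro x y hxy
      exact congrArg Prod.fst hxy) (fun x => ⟨(0, x), rfl⟩) (by
      rintro ⟨x, y⟩ hx
      refine ⟨x, ?_⟩
      have : y = 0 := hx
      rw [this]
      rfl) (fun y => rfl) (AddMonoidHom.mulLeft a)
    (AddMonoidHom.mk' (mt a b 0 d) (by
      intro p q
      unfold mt
      ext
      · simp only [Prod.fst_add, Prod.snd_add]
        ring
      · simp only [Prod.fst_add, Prod.snd_add]
        ring)) (AddMonoidHom.mulLeft d) (by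
      intro y
      show mt a b 0 d (y, 0) = (a * y, 0)
      unfold mt
      simp) (by
      intro p
      show 0 * p.1 + d * p.2 = d * p.2
      ring) (odd_card_prod hF)
  rw [map_mul]
  have h1 := sg_field hF a
  have h2 := sg_field hF d
  rw [← h1, ← h2]
  exact h

theorem sg_mt (hF : ringChar F ≠ 2) (a b c d : F) :
    sg (mt a b c d) = quadraticChar F (a * d - b * c) := by
  have key : ∀ a b c d : F, a ≠ 0 → sg (mt a b c d) = quadraticChar F (a * d - b * c) := by
    intro a b c d ha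
    have h1 : mt a b c d = mt 1 0 (c / a) 1 ∘ mt a b 0 (d - c / a * b) := by
      funext p
      unfold mt
      ext
      · simp
      · simp only [comp_apply]
        field_simp
        ring
    rw [h1, sg_comp, sg_lower hF, sg_upper hF, one_mul, map_one, one_mul]
    congr 1
    field_simp
  by_cases ha : a = 0
  · subst ha
    by_cases hb : b = 0
    · subst hb
      rw [sg_of_not]
      · simp
      · intro h
        obtain ⟨p, hp⟩ := h.2 (1, 0)
        have : (0 : F) * p.1 + 0 * p.2 = 1 := congrArg Prod.fst hp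
        simp at this
    · have h1 := key b b (c + d) d hb
      have h2 : mt b b (c + d) d = mt 0 b c d ∘ mt 1 0 1 1 := by
        funext p
        unfold mt
        ext
        · simp only [comp_apply]
          ring
        · simp only [comp_apply]
          ring
      rw [h2, sg_comp, sg_lower hF, one_mul, map_one, mul_one] at h1
      rw [h1]
      congr 1
      ring
  · exact key a b c d ha

end plane

/-! ## rational denominators -/

theorem zq_rat_prime (V : Zs) (p : ℕ) [hp : Fact p.Prime] (h2 : p ≠ 2) :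
    zq V (p : Zs) = jacobiSym V.norm p := by
  classical
  have e : QuadraticAlgebra (ZMod p) (-2) 0 ≃ ZMod p × ZMod p := QuadraticAlgebra.equivProd _ _
  have hfin : Finite (QuadraticAlgebra (ZMod p) (-2) 0) := Finite.of_equiv _ e.symm
  let φ : Zs →+* QuadraticAlgebra (ZMod p) (-2) 0 := Zsqrtd.lift ⟨⟨0, 1⟩, by
    ext
    · rw [QuadraticAlgebra.re_intCast]
      simp
    · rw [QuadraticAlgebra.im_intCast]
      simp⟩
  have hφ : ∀ x : Zs, φ x = ⟨(x.re : ZMod p), (x.im : ZMod p)⟩ := by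
    intro x
    show ((x.re : ℤ) : QuadraticAlgebra (ZMod p) (-2) 0) + ((x.im : ℤ) : _) * ⟨0, 1⟩ = _
    ext
    · simp
    · simp
  have hsurj : Surjective φ := by
    rintro ⟨a, b⟩
    obtain ⟨a, rfl⟩ := ZMod.intCast_surjective a
    obtain ⟨b, rfl⟩ := ZMod.intCast_surjective b
    exact ⟨⟨a, b⟩, hφ _⟩
  have hker : ∀ x : Zs, φ x = 0 ↔ (p : Zs) ∣ x := by
    intro x
    have h3 : (p : Zs) = ((p : ℤ) : Zs) := by norm_cast
    rw [hφ, h3, Zsqrtd.intCast_dvd, ← ZMod.intCast_zmod_eq_zero_iff_dvd,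
      ← ZMod.intCast_zmod_eq_zero_iff_dvd]
    constructor
    · intro h
      exact ⟨congrArg QuadraticAlgebra.re h, congrArg QuadraticAlgebra.im h⟩
    · rintro ⟨h4, h5⟩
      rw [h4, h5]
      rfl
  rw [zq_hom φ hsurj _ hker V]
  have hF : ringChar (ZMod p) ≠ 2 := by rw [ZMod.ringChar_zmod_n]; exact h2
  have h4 := sg_mt hF (V.re : ZMod p) (-2 * V.im) V.im V.re
  have h5 := sg_conj (QuadraticAlgebra.equivProd (-2 : ZMod p) (0 : ZMod p))
    (fun x => φ V * x) (mt (V.re : ZMod p) (-2 * V.im) V.im V.re) (by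
      intro x
      rw [hφ]
      unfold mt
      ext
      · simp [QuadraticAlgebra.equivProd]
      · simp [QuadraticAlgebra.equivProd]
        ring)
  rw [← h5, h4, ← jacobiSym.legendreSym.to_jacobiSym, legendreSym]
  congr 1
  rw [nv]
  push_cast
  ring

theorem zq_rat_nat (V : Zs) (n : ℕ) (hn : Odd n) : zq V (n : Zs) = jacobiSym V.norm n := by
  induction n using Nat.recOnMul with
  | zero => exact absurd hn (by decide)
  | one =>
    rw [jacobiSym.one_right]
    exact zq_unit_right V (by simp)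
  | prime p hp =>
    have : Fact p.Prime := ⟨hp⟩
    exact zq_rat_prime V p (by rintro rfl; exact absurd hn (by decide))
  | mul x y hx hy =>
    obtain ⟨h1, h2⟩ := Nat.odd_mul.1 hn
    have hnorm : ∀ z : ℕ, Odd z → ((z : Zs)).norm % 2 = 1 := by
      intro z hz
      rw [Zsqrtd.norm_natCast]
      have := hz.mul hz
      rw [Nat.odd_iff] at this
      exact_mod_cast this
    have hx0 : NeZero x := ⟨by rintro rfl; exact absurd h1 (by decide)⟩
    have hy0 : NeZero y := ⟨by rintro rfl; exact absurd h2 (by decide)⟩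
    rw [jacobiSym.mul_right, ← hx h1, ← hy h2, Nat.cast_mul]
    exact zq_mr V (hnorm x h1) (hnorm y h2)

/-! ## the two symbols agree -/

theorem loc_neg (x y : Zs) : loc x (-y) = loc x y := by
  unfold loc
  have h1 : Int.gcd (-y).re (-y).im = Int.gcd y.re y.im := by
    rw [Zsqrtd.re_neg, Zsqrtd.im_neg, Int.neg_gcd, Int.gcd_neg]
  have h2 : (-y).norm = y.norm := by
    rw [nv, nv, Zsqrtd.re_neg, Zsqrtd.im_neg]
    ring
  rw [h1, h2]
  congr 2
  rw [Zsqrtd.re_neg, Zsqrtd.im_neg]
  ring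

theorem unit_cases {u : Zs} (hu : IsUnit u) : u = 1 ∨ u = -1 := by
  have h1 : u.norm.natAbs = 1 := Zsqrtd.norm_eq_one_iff.2 hu
  have h2 : u.norm = 1 := by
    have := nn u
    omega
  rw [nv] at h2
  have h3 : u.im = 0 := by nlinarith [sq_nonneg u.re, sq_nonneg u.im, sq_nonneg (u.im - 1), sq_nonneg (u.im + 1)]
  have h4 : u.re * u.re = 1 := by
    rw [h3] at h2
    linarith
  rcases Int.isUnit_iff.1 (IsUnit.of_mul_eq_one _ h4) with h5 | h5
  · left
    ext
    · simpa using h5
    · simpa using h3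
  · right
    ext
    · simpa using h5
    · simpa using h3

theorem loc_assoc (x : Zs) {y y' : Zs} (h : Associated y y') : loc x y = loc x y' := by
  obtain ⟨u, rfl⟩ := h
  rcases unit_cases u.isUnit with h1 | h1
  · rw [h1, mul_one]
  · rw [h1, mul_neg_one, loc_neg]

/-- an irreducible element of odd norm is primitive or `±` a rational prime -/
theorem irr_cases {ρ : Zs} (hρ : Irreducible ρ) (hN : ρ.norm % 2 = 1)
    (hg : Int.gcd ρ.re ρ.im ≠ 1) : Associated ((Int.gcd ρ.re ρ.im : ℕ) : Zs) ρ ∧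
      Odd (Int.gcd ρ.re ρ.im) := by
  set g := Int.gcd ρ.re ρ.im with hgd
  obtain ⟨a, ha⟩ := Int.gcd_dvd_left ρ.re ρ.im
  obtain ⟨b, hb⟩ := Int.gcd_dvd_right ρ.re ρ.im
  rw [← hgd] at ha hb
  have h1 : ρ = (g : Zs) * ⟨a, b⟩ := by
    ext
    · simp [ha]
    · simp [hb]
  have h2 : ¬ IsUnit (g : Zs) := by
    intro h
    have h3 := Zsqrtd.norm_eq_one_iff.2 h
    rw [Zsqrtd.norm_natCast, Int.natAbs_mul, Int.natAbs_natCast] at h3
    exact hg (Nat.eq_one_of_mul_eq_one_left h3)
  rcases hρ.isUnit_or_isUnit h1 with h3 | h3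
  · exact absurd h3 h2
  · constructor
    · rw [h1]
      exact (associated_mul_unit_right (g : Zs) _ h3)
    · have h4 : ρ.norm = g * g * (⟨a, b⟩ : Zs).norm := by
        conv_lhs => rw [h1]
        rw [Zsqrtd.norm_mul, Zsqrtd.norm_natCast]
      by_contra h5
      rw [Nat.not_odd_iff_even] at h5
      obtain ⟨c, hc⟩ := h5
      rw [h4, hc] at hN
      have h6 : (((c + c : ℕ) : ℤ) * ((c + c : ℕ) : ℤ) * (⟨a, b⟩ : Zs).norm) =
        2 * (2 * (c * c * (⟨a, b⟩ : Zs).norm)) := by
        push_cast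
        ring
      rw [h6] at hN
      omega

theorem loc_eq (x : Zs) {ρ : Zs} (hρ : Irreducible ρ) (hN : ρ.norm % 2 = 1) :
    loc x ρ = zq x ρ := by
  by_cases hg : Int.gcd ρ.re ρ.im = 1
  · rw [zq_prim x hN hg]
    unfold loc
    rw [if_pos hg]
  · obtain ⟨h1, h2⟩ := irr_cases hρ hN hg
    rw [← zq_assoc h1, zq_rat_nat x _ h2]
    unfold loc
    rw [if_neg hg]

theorem norm_odd_of_dvd {x y : Zs} (h : x ∣ y) (hy : y.norm % 2 = 1) : x.norm % 2 = 1 := by
  obtain ⟨c, rfl⟩ := h
  rw [Zsqrtd.norm_mul] at hy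
  have h1 : Odd (x.norm * c.norm) := Int.odd_iff.2 hy
  exact Int.odd_iff.1 (Int.odd_mul.1 h1).1

theorem zq_multiset (x : Zs) (s : Multiset Zs) (hs : ∀ ρ ∈ s, Irreducible ρ)
    (hs' : ∀ ρ ∈ s, ρ.norm % 2 = 1) :
    (s.map (fun ρ => loc x ρ)).prod = zq x s.prod ∧ s.prod.norm % 2 = 1 := by
  induction s using Multiset.induction_on with
  | empty =>
    rw [Multiset.map_zero, Multiset.prod_zero, Multiset.prod_zero]
    exact ⟨(zq_unit_right x isUnit_one).symm, by norm_num⟩
  | cons a s ih =>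
    obtain ⟨h1, h2⟩ := ih (fun ρ h => hs ρ (Multiset.mem_cons_of_mem h))
      (fun ρ h => hs' ρ (Multiset.mem_cons_of_mem h))
    have ha := hs' a (Multiset.mem_cons_self a s)
    rw [Multiset.map_cons, Multiset.prod_cons, Multiset.prod_cons, h1, zq_mr x ha h2,
      loc_eq x (hs a (Multiset.mem_cons_self a s)) ha]
    refine ⟨rfl, ?_⟩
    rw [Zsqrtd.norm_mul, Int.mul_emod, ha, h2]
    norm_num

theorem qs_eq (x : Zs) {y : Zs} (hy : y.norm % 2 = 1) : qs x y = zq x y := by
  have h0 := ne_zero_of_odd hy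
  have h1 := UniqueFactorizationMonoid.factors_prod h0
  have h2 := zq_multiset x (UniqueFactorizationMonoid.factors y)
    (fun ρ h => UniqueFactorizationMonoid.irreducible_of_factor ρ h)
    (fun ρ h => norm_odd_of_dvd (UniqueFactorizationMonoid.dvd_of_mem_factors h) hy)
  unfold qs
  rw [h2.1, zq_assoc h1]

theorem loc_int (u : ℤ) {ρ : Zs} (hρ : Irreducible ρ) (hN : ρ.norm % 2 = 1) :
    loc (u : Zs) ρ = jacobiSym u ρ.norm.natAbs := by
  have hpos := n_pos (ne_zero_of_odd hN)
  by_cases hg : Int.gcd ρ.re ρ.im = 1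
  · unfold loc
    rw [if_pos hg]
    have h1 : ((u : Zs).re * ρ.re + 2 * (u : Zs).im * ρ.im) * ρ.re = u * ρ.re ^ 2 := by
      rw [Zsqrtd.re_intCast, Zsqrtd.im_intCast]
      ring
    have h2 : Int.gcd ρ.re (ρ.norm.natAbs : ℤ) = 1 := by
      rw [Int.natAbs_of_nonneg hpos.le]
      exact Int.isCoprime_iff_gcd_eq_one.1 (coprime_re hN hg)
    rw [h1, jacobiSym.mul_left, jacobiSym.pow_left, jacobiSym.sq_one h2, mul_one]
  · obtain ⟨h1, h2⟩ := irr_cases hρ hN hg
    have h3 : ρ.norm.natAbs = Int.gcd ρ.re ρ.im * Int.gcd ρ.re ρ.im := by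
      obtain ⟨v, hv⟩ := h1
      have h4 := Zsqrtd.norm_eq_one_iff.2 v.isUnit
      conv_lhs => rw [← hv]
      rw [Zsqrtd.norm_mul, Int.natAbs_mul, h4, mul_one, Zsqrtd.norm_natCast, Int.natAbs_mul,
        Int.natAbs_natCast]
    have : NeZero (Int.gcd ρ.re ρ.im) := ⟨by
      intro h5
      rw [h5] at h2
      exact absurd h2 (by decide)⟩
    unfold loc
    rw [if_neg hg, h3, jacobiSym.mul_right, Zsqrtd.norm_intCast, jacobiSym.mul_left]

theorem int_multiset (u : ℤ) (s : Multiset Zs) (hs : ∀ ρ ∈ s, Irreducible ρ)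
    (hs' : ∀ ρ ∈ s, ρ.norm % 2 = 1) :
    (s.map (fun ρ => loc (u : Zs) ρ)).prod = jacobiSym u s.prod.norm.natAbs ∧
      s.prod.norm % 2 = 1 := by
  induction s using Multiset.induction_on with
  | empty =>
    rw [Multiset.map_zero, Multiset.prod_zero, Multiset.prod_zero]
    refine ⟨?_, by norm_num⟩
    rw [Zsqrtd.norm_one, Int.natAbs_one, jacobiSym.one_right]
  | cons a s ih =>
    obtain ⟨h1, h2⟩ := ih (fun ρ h => hs ρ (Multiset.mem_cons_of_mem h))
      (fun ρ h => hs' ρ (Multiset.mem_cons_of_mem h))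
    have ha := hs' a (Multiset.mem_cons_self a s)
    have i1 : NeZero a.norm.natAbs := ⟨Int.natAbs_ne_zero.2 (by omega)⟩
    have i2 : NeZero s.prod.norm.natAbs := ⟨Int.natAbs_ne_zero.2 (by omega)⟩
    rw [Multiset.map_cons, Multiset.prod_cons, Multiset.prod_cons, h1,
      loc_int u (hs a (Multiset.mem_cons_self a s)) ha, Zsqrtd.norm_mul, Int.natAbs_mul,
      jacobiSym.mul_right]
    refine ⟨rfl, ?_⟩
    rw [Int.mul_emod, ha, h2]
    norm_num

theorem qs_of_rel (x : Zs) {s t : Multiset Zs} (h : Multiset.Rel Associated s t) :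
    (s.map (fun ρ => loc x ρ)).prod = (t.map (fun ρ => loc x ρ)).prod := by
  congr 1
  refine Multiset.rel_eq.1 (Multiset.rel_map.2 (h.mono ?_))
  intro a _ b _ hab
  exact loc_assoc x hab

end Pool.Agent.TM32.Z33

namespace Pool.Agent.TM32

open Zsqrtd Z33 Pool.Agent.Zolo33

theorem qs_mul_left (x x' : Zs) {y : Zs} (hy : y.norm % 2 = 1) :
    qs (x * x') y = qs x y * qs x' y := by
  rw [qs_eq _ hy, qs_eq _ hy, qs_eq _ hy, zq_mul_left]

theorem qs_mul_right (x : Zs) {y y' : Zs} (h : y ≠ 0) (h' : y' ≠ 0) :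
    qs x (y * y') = qs x y * qs x y' := by
  unfold qs
  rw [qs_of_rel x (UniqueFactorizationMonoid.factors_mul h h'), Multiset.map_add,
    Multiset.prod_add]

theorem qs_assoc (x : Zs) {y y' : Zs} (h : Associated y y') : qs x y = qs x y' := by
  by_cases hy : y = 0
  · subst hy
    rw [(associated_zero_iff_eq_zero y').1 h.symm]
  · have hy' : y' ≠ 0 := by
      intro h1
      rw [h1] at h
      exact hy ((associated_zero_iff_eq_zero y).1 h)
    unfold qs
    apply qs_of_rel
    refine UniqueFactorizationMonoid.factors_unique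
      (fun ρ h => UniqueFactorizationMonoid.irreducible_of_factor ρ h)
      (fun ρ h => UniqueFactorizationMonoid.irreducible_of_factor ρ h) ?_
    exact ((UniqueFactorizationMonoid.factors_prod hy).trans h).trans
      (UniqueFactorizationMonoid.factors_prod hy').symm

theorem qs_congr {x x' y : Zs} (hy : y.norm % 2 = 1) (h : y ∣ x - x') : qs x y = qs x' y := by
  rw [qs_eq _ hy, qs_eq _ hy, zq_congr h]

theorem qs_pm {x y : Zs} (hy : y.norm % 2 = 1) (h : IsCoprime x y) :
    qs x y = 1 ∨ qs x y = -1 := by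
  have := fin_odd hy
  rw [qs_eq _ hy]
  exact zq_cases x y h

theorem qs_zero {x y : Zs} (hy : y.norm % 2 = 1) (h : ¬ IsCoprime x y) : qs x y = 0 := by
  rw [qs_eq _ hy]
  exact zq_eq_zero h

/-- rational denominator -/
theorem qs_rat (x : Zs) {q : ℤ} (hq : q % 2 = 1) :
    qs x (q : Zs) = jacobiSym x.norm q.natAbs := by
  have h1 : Associated ((q.natAbs : ℕ) : Zs) (q : Zs) := by
    obtain ⟨n, rfl | rfl⟩ := Int.eq_nat_or_neg q
    · rw [Int.natAbs_natCast, Int.cast_natCast]
    · rw [Int.natAbs_neg, Int.natAbs_natCast, Int.cast_neg, Int.cast_natCast]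
      exact (Associated.refl _).neg_right
  have hn : Odd q.natAbs := by
    rw [Int.natAbs_odd]
    exact Int.odd_iff.2 hq
  have hq' : ((q.natAbs : ℕ) : Zs).norm % 2 = 1 := by
    rw [Zsqrtd.norm_natCast]
    exact_mod_cast Nat.odd_iff.1 (hn.mul hn)
  rw [← qs_assoc x h1, qs_eq x hq', zq_rat_nat x _ hn]

/-- primitive denominator -/
theorem qs_prim (x : Zs) {y : Zs} (hy : y.norm % 2 = 1) (h : Int.gcd y.re y.im = 1) :
    qs x y = jacobiSym ((x.re * y.re + 2 * x.im * y.im) * y.re) y.norm.natAbs := by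
  rw [qs_eq x hy, zq_prim x hy h]

/-- rational numerator -/
theorem qs_int (u : ℤ) {y : Zs} (hy : y.norm % 2 = 1) :
    qs (u : Zs) y = jacobiSym u y.norm.natAbs := by
  have h0 := ne_zero_of_odd hy
  obtain ⟨v, hv⟩ := UniqueFactorizationMonoid.factors_prod h0
  have h2 := int_multiset u (UniqueFactorizationMonoid.factors y)
    (fun ρ h => UniqueFactorizationMonoid.irreducible_of_factor ρ h)
    (fun ρ h => norm_odd_of_dvd (UniqueFactorizationMonoid.dvd_of_mem_factors h) hy)
  unfold qs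
  rw [h2.1]
  congr 1
  have h4 := Zsqrtd.norm_eq_one_iff.2 v.isUnit
  conv_rhs => rw [← hv]
  rw [Zsqrtd.norm_mul, Int.natAbs_mul, h4, mul_one]

end Pool.Agent.TM32
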