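import Pool.Agent.Lib_helper51.TM32.Defs2
import Pool.Agent.Lib_helper33.TM32.Z1

/-!
# TM32, block Z2: reciprocity in `ℤ[√-2]` (helper33)
-/

set_option autoImplicit false

namespace Pool.Agent.TM32

open Zsqrtd

namespace Z33

/-! ## signs of the rational law -/

/-- the sign of quadratic reciprocity, one of the entries positive -/
def s4 (e m : ℤ) : ℤ := if e % 4 = 1 ∨ m % 4 = 1 then 1 else -1

def c8 (n : ℤ) : ℤ := if n % 8 = 1 ∨ n % 8 = 7 then 1 else -1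

theorem jac_recip (E : ℤ) (hE : E % 2 = 1) (M : ℕ) (hM : M % 2 = 1) :
    jacobiSym E M = s4 E M * jacobiSym M E.natAbs := by
  have hM' : Odd M := Nat.odd_iff.2 hM
  have hM4 : M % 4 = 1 ∨ M % 4 = 3 := by omega
  obtain ⟨n, rfl | rfl⟩ := Int.eq_nat_or_neg E
  · have hn : Odd n := by
      rw [Nat.odd_iff]
      omega
    have hn4 : n % 4 = 1 ∨ n % 4 = 3 := by
      rw [Nat.odd_iff] at hn
      omega
    rw [Int.natAbs_natCast]
    unfold s4
    rcases hM4 with h1 | h1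
    · rw [if_pos (Or.inr (by omega)), one_mul]
      exact jacobiSym.quadratic_reciprocity_one_mod_four' hn h1
    · rcases hn4 with h2 | h2
      · rw [if_pos (Or.inl (by omega)), one_mul]
        exact jacobiSym.quadratic_reciprocity_one_mod_four h2 hM'
      · rw [if_neg (by omega), neg_one_mul]
        exact jacobiSym.quadratic_reciprocity_three_mod_four h2 h1
  · have hn : Odd n := by
      rw [Nat.odd_iff]
      omega
    have hn4 : n % 4 = 1 ∨ n % 4 = 3 := by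
      rw [Nat.odd_iff] at hn
      omega
    rw [Int.natAbs_neg, Int.natAbs_natCast, jacobiSym.neg _ hM']
    unfold s4
    rcases hM4 with h1 | h1
    · rw [if_pos (Or.inr (by omega)), one_mul, ZMod.χ₄_nat_one_mod_four h1, one_mul]
      exact jacobiSym.quadratic_reciprocity_one_mod_four' hn h1
    · rw [ZMod.χ₄_nat_three_mod_four h1]
      rcases hn4 with h2 | h2
      · rw [if_neg (by omega)]
        congr 1
        exact jacobiSym.quadratic_reciprocity_one_mod_four h2 hM'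
      · rw [if_pos (by omega), jacobiSym.quadratic_reciprocity_three_mod_four h2 h1]
        ring

theorem jac_two (n : ℤ) (hn : n % 2 = 1) : jacobiSym 2 n.natAbs = c8 n := by
  have h1 : Odd n.natAbs := by
    rw [Int.natAbs_odd]
    exact Int.odd_iff.2 hn
  rw [jacobiSym.at_two h1, ZMod.χ₈_nat_eq_if_mod_eight]
  unfold c8
  rw [Nat.odd_iff] at h1
  rw [if_neg (by omega)]
  split_ifs <;> first | rfl | omega

/-! ## `rho` depends on residues modulo 4 -/

theorem rho_mod (x y : Zs) : rho x y = rho ⟨x.re % 4, x.im % 4⟩ ⟨y.re % 4, y.im % 4⟩ := by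
  unfold rho
  simp only
  split_ifs <;> omega

theorem rho_congr {x x' y y' : Zs} (h1 : x.re % 4 = x'.re % 4) (h2 : x.im % 4 = x'.im % 4)
    (h3 : y.re % 4 = y'.re % 4) (h4 : y.im % 4 = y'.im % 4) : rho x y = rho x' y' := by
  rw [rho_mod x y, rho_mod x' y', h1, h2, h3, h4]

theorem re_odd {x : Zs} (hx : x.norm % 2 = 1) : x.re % 2 = 1 := by
  rw [nv] at hx
  by_contra h
  have h1 : x.re % 2 = 0 := by omega
  obtain ⟨k, hk⟩ := Int.dvd_of_emod_eq_zero h1
  rw [hk] at hx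
  have h2 : (2 * k) ^ 2 + 2 * x.im ^ 2 = 2 * (2 * k ^ 2 + x.im ^ 2) := by ring
  rw [h2] at hx
  omega

theorem rho_mul_fin : ∀ a b c d e f : Fin 4, (a : ℕ) % 2 = 1 → (c : ℕ) % 2 = 1 → (e : ℕ) % 2 = 1 →
    rho ⟨(a : ℕ) * (c : ℕ) + (-2) * (b : ℕ) * (d : ℕ), (a : ℕ) * (d : ℕ) + (b : ℕ) * (c : ℕ)⟩
      ⟨(e : ℕ), (f : ℕ)⟩ =
    rho ⟨(a : ℕ), (b : ℕ)⟩ ⟨(e : ℕ), (f : ℕ)⟩ * rho ⟨(c : ℕ), (d : ℕ)⟩ ⟨(e : ℕ), (f : ℕ)⟩ := by
  decide +kernel

theorem exists_fin (n : ℕ) [NeZero n] (u : ℤ) : ∃ k : Fin n, u ≡ ((k : ℕ) : ℤ) [ZMOD n] := by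
  have hn : (0 : ℤ) < n := by
    have := NeZero.pos n
    exact_mod_cast this
  have h1 := Int.emod_nonneg u hn.ne'
  have h2 := Int.emod_lt_of_pos u hn
  refine ⟨⟨(u % n).toNat, by omega⟩, ?_⟩
  have h3 : (((u % n).toNat : ℕ) : ℤ) = u % n := Int.toNat_of_nonneg h1
  show u ≡ (((u % n).toNat : ℕ) : ℤ) [ZMOD n]
  rw [h3]
  exact (Int.mod_modEq u n).symm

end Z33

open Z33

theorem rho_mul_left {x x' y : Zs} (hx : x.norm % 2 = 1) (hx' : x'.norm % 2 = 1)
    (hy : y.norm % 2 = 1) : rho (x * x') y = rho x y * rho x' y := by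
  obtain ⟨a, ha⟩ := exists_fin 4 x.re
  obtain ⟨b, hb⟩ := exists_fin 4 x.im
  obtain ⟨c, hc⟩ := exists_fin 4 x'.re
  obtain ⟨d, hd⟩ := exists_fin 4 x'.im
  obtain ⟨e, he⟩ := exists_fin 4 y.re
  obtain ⟨f, hf⟩ := exists_fin 4 y.im
  have h1 := re_odd hx
  have h2 := re_odd hx'
  have h3 := re_odd hy
  have ha2 : (a : ℕ) % 2 = 1 := by
    have : x.re % 4 = ((a : ℕ) : ℤ) % 4 := ha
    omega
  have hc2 : (c : ℕ) % 2 = 1 := by
    have : x'.re % 4 = ((c : ℕ) : ℤ) % 4 := hc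
    omega
  have he2 : (e : ℕ) % 2 = 1 := by
    have : y.re % 4 = ((e : ℕ) : ℤ) % 4 := he
    omega
  have h4 := rho_mul_fin a b c d e f ha2 hc2 he2
  have e1 : rho (x * x') y = rho ⟨(a : ℕ) * (c : ℕ) + (-2) * (b : ℕ) * (d : ℕ),
      (a : ℕ) * (d : ℕ) + (b : ℕ) * (c : ℕ)⟩ ⟨(e : ℕ), (f : ℕ)⟩ := by
    refine rho_congr ?_ ?_ he hf
    · rw [Zsqrtd.re_mul]
      exact (ha.mul hc).add (((Int.ModEq.refl (-2)).mul hb).mul hd)
    · rw [Zsqrtd.im_mul]
      exact (ha.mul hd).add (hb.mul hc)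
  rw [e1, h4]
  congr 1
  · exact rho_congr ha.symm hb.symm he.symm hf.symm
  · exact rho_congr hc.symm hd.symm he.symm hf.symm

theorem rho_comm (x y : Zs) : rho x y = rho y x := by
  unfold rho
  split_ifs <;> first | rfl | omega

theorem rho_self {y : Zs} (hy : y.norm % 2 = 1) : rho y y = rho (-1) y := by
  unfold rho
  have h1 : (-1 : Zs).im = 0 := rfl
  have h2 : (-1 : Zs).re = -1 := rfl
  rw [h1, h2]
  split_ifs <;> first | rfl | omega

/-- `(-1/y) = rho (-1) y`, and `rho (-1) y = rho y y` -/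
theorem qs_neg_one {y : Zs} (hy : y.norm % 2 = 1) : qs (-1) y = rho (-1) y := by
  have h0 : (-1 : Zs) = ((-1 : ℤ) : Zs) := by norm_cast
  have hn := n_pos (ne_zero_of_odd hy)
  have h1 : Odd y.norm.natAbs := by
    rw [Int.natAbs_odd]
    exact Int.odd_iff.2 hy
  have hre := re_odd hy
  conv_lhs => rw [h0]
  rw [qs_int _ hy, jacobiSym.at_neg_one h1]
  have h3 : rho (-1) y = if y.im % 2 = 0 then 1 else -1 := by
    unfold rho
    have h1 : (-1 : Zs).im = 0 := rfl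
    have h2 : (-1 : Zs).re = -1 := rfl
    rw [h1, h2]
    split_ifs <;> first | rfl | omega
  rw [h3]
  have h4 : ((y.norm.natAbs : ℕ) : ℤ) = y.re ^ 2 + 2 * y.im ^ 2 := by
    rw [Int.natAbs_of_nonneg hn.le, nv]
  obtain ⟨k, hk⟩ : ∃ k, y.re = 2 * k + 1 := ⟨y.re / 2, by omega⟩
  split_ifs with h5
  · obtain ⟨l, hl⟩ : ∃ l, y.im = 2 * l := ⟨y.im / 2, by omega⟩
    apply ZMod.χ₄_nat_one_mod_four
    have : ((y.norm.natAbs : ℕ) : ℤ) = 4 * (k ^ 2 + k + 2 * l ^ 2) + 1 := by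
      rw [h4, hk, hl]
      ring
    omega
  · obtain ⟨l, hl⟩ : ∃ l, y.im = 2 * l + 1 := ⟨y.im / 2, by omega⟩
    apply ZMod.χ₄_nat_three_mod_four
    have : ((y.norm.natAbs : ℕ) : ℤ) = 4 * (k ^ 2 + k + 2 * l ^ 2 + 2 * l) + 3 := by
      rw [h4, hk, hl]
      ring
    omega

namespace Z33

theorem main_fin : ∀ a b c d : Fin 8, (a : ℕ) % 2 = 1 → (c : ℕ) % 2 = 1 →
    s4 ((a : ℕ) * (c : ℕ) + 2 * ((b : ℕ) * (d : ℕ)))
      (((a : ℕ) ^ 2 + 2 * (b : ℕ) ^ 2) * ((c : ℕ) ^ 2 + 2 * (d : ℕ) ^ 2)) *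
    c8 ((a : ℕ) * (c : ℕ) + 2 * ((b : ℕ) * (d : ℕ))) *
    (s4 (a : ℕ) ((a : ℕ) ^ 2 + 2 * (b : ℕ) ^ 2) * c8 (a : ℕ)) *
    (s4 (c : ℕ) ((c : ℕ) ^ 2 + 2 * (d : ℕ) ^ 2) * c8 (c : ℕ)) =
    rho ⟨(a : ℕ), (b : ℕ)⟩ ⟨(c : ℕ), (d : ℕ)⟩ := by
  decide +kernel

theorem s4_congr {e e' m m' : ℤ} (h : e ≡ e' [ZMOD 8]) (h' : m ≡ m' [ZMOD 8]) :
    s4 e m = s4 e' m' := by
  have h1 : e % 8 = e' % 8 := h
  have h2 : m % 8 = m' % 8 := h'
  unfold s4
  split_ifs <;> first | rfl | omega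

theorem c8_congr {e e' : ℤ} (h : e ≡ e' [ZMOD 8]) : c8 e = c8 e' := by
  have h1 : e % 8 = e' % 8 := h
  unfold c8
  rw [h1]

theorem main_int (a b c d : ℤ) (ha1 : a % 2 = 1) (hc1 : c % 2 = 1) :
    s4 (a * c + 2 * (b * d)) ((a ^ 2 + 2 * b ^ 2) * (c ^ 2 + 2 * d ^ 2)) *
    c8 (a * c + 2 * (b * d)) * (s4 a (a ^ 2 + 2 * b ^ 2) * c8 a) *
    (s4 c (c ^ 2 + 2 * d ^ 2) * c8 c) = rho ⟨a, b⟩ ⟨c, d⟩ := by
  obtain ⟨a', ha⟩ := exists_fin 8 a
  obtain ⟨b', hb⟩ := exists_fin 8 b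
  obtain ⟨c', hc⟩ := exists_fin 8 c
  obtain ⟨d', hd⟩ := exists_fin 8 d
  have ha8 : a % 8 = ((a' : ℕ) : ℤ) % 8 := ha
  have hb8 : b % 8 = ((b' : ℕ) : ℤ) % 8 := hb
  have hc8 : c % 8 = ((c' : ℕ) : ℤ) % 8 := hc
  have hd8 : d % 8 = ((d' : ℕ) : ℤ) % 8 := hd
  have hE : a * c + 2 * (b * d) ≡ (a' : ℕ) * (c' : ℕ) + 2 * ((b' : ℕ) * (d' : ℕ)) [ZMOD 8] :=
    (ha.mul hc).add ((hb.mul hd).mul_left 2)
  have hA : a ^ 2 + 2 * b ^ 2 ≡ ((a' : ℕ) : ℤ) ^ 2 + 2 * ((b' : ℕ) : ℤ) ^ 2 [ZMOD 8] :=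
    (ha.pow 2).add ((hb.pow 2).mul_left 2)
  have hV : c ^ 2 + 2 * d ^ 2 ≡ ((c' : ℕ) : ℤ) ^ 2 + 2 * ((d' : ℕ) : ℤ) ^ 2 [ZMOD 8] :=
    (hc.pow 2).add ((hd.pow 2).mul_left 2)
  rw [s4_congr hE (hA.mul hV), c8_congr hE, s4_congr ha hA, c8_congr ha, s4_congr hc hV,
    c8_congr hc, main_fin a' b' c' d' (by omega) (by omega)]
  refine rho_congr ?_ ?_ ?_ ?_ <;> show (_ : ℤ) % 4 = _ % 4 <;> simp only <;> omega

/-- `J(a₀ | N A)` for primitive `A` -/
theorem jac_re {A : Zs} (hN : A.norm % 2 = 1) (hg : Int.gcd A.re A.im = 1) :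
    jacobiSym A.re A.norm.natAbs = s4 A.re (A.re ^ 2 + 2 * A.im ^ 2) * c8 A.re := by
  have hpos := n_pos (ne_zero_of_odd hN)
  have hnn : ((A.norm.natAbs : ℕ) : ℤ) = A.re ^ 2 + 2 * A.im ^ 2 := by
    rw [Int.natAbs_of_nonneg hpos.le, nv]
  have hre := re_odd hN
  rw [jac_recip A.re hre _ (by omega), hnn]
  congr 1
  have h1 : jacobiSym (A.re ^ 2 + 2 * A.im ^ 2) A.re.natAbs =
      jacobiSym (2 * A.im ^ 2) A.re.natAbs := by
    rw [jacobiSym.mod_left, jacobiSym.mod_left (2 * A.im ^ 2)]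
    congr 1
    apply Int.ModEq.symm
    rw [Int.modEq_iff_dvd]
    have : A.re ^ 2 + 2 * A.im ^ 2 - 2 * A.im ^ 2 = A.re * A.re := by ring
    rw [this]
    exact (Int.natAbs_dvd.2 (dvd_refl _)).mul_right _
  rw [h1, jacobiSym.mul_left, jacobiSym.pow_left, jac_two _ hre]
  have h2 : Int.gcd A.im (A.re.natAbs : ℤ) = 1 := by
    rw [← hg, Int.gcd_comm A.re]
    unfold Int.gcd
    rw [Int.natAbs_natCast]
  rw [jacobiSym.sq_one h2, mul_one]

theorem recip_prim {A V : Zs} (hA : A.norm % 2 = 1) (hV : V.norm % 2 = 1)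
    (gA : Int.gcd A.re A.im = 1) (gV : Int.gcd V.re V.im = 1) (h : IsCoprime A V) :
    qs A V * qs V A = rho A V := by
  have hpA := n_pos (ne_zero_of_odd hA)
  have hpV := n_pos (ne_zero_of_odd hV)
  have hnA : ((A.norm.natAbs : ℕ) : ℤ) = A.re ^ 2 + 2 * A.im ^ 2 := by
    rw [Int.natAbs_of_nonneg hpA.le, nv]
  have hnV : ((V.norm.natAbs : ℕ) : ℤ) = V.re ^ 2 + 2 * V.im ^ 2 := by
    rw [Int.natAbs_of_nonneg hpV.le, nv]
  have hAr := re_odd hA
  have hVr := re_odd hV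
  obtain ⟨kA, hkA⟩ : ∃ k, A.re = 2 * k + 1 := ⟨A.re / 2, by omega⟩
  obtain ⟨kV, hkV⟩ : ∃ k, V.re = 2 * k + 1 := ⟨V.re / 2, by omega⟩
  set E := A.re * V.re + 2 * (A.im * V.im) with hE
  have hEodd : E % 2 = 1 := by
    have : E = 2 * (2 * kA * kV + kA + kV + A.im * V.im) + 1 := by
      rw [hE, hkA, hkV]
      ring
    omega
  have e1 : qs V A = jacobiSym E A.norm.natAbs * jacobiSym A.re A.norm.natAbs := by
    rw [qs_prim V hA gA, ← jacobiSym.mul_left]
    congr 1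
    rw [hE]
    ring
  have e2 : qs A V = jacobiSym E V.norm.natAbs * jacobiSym V.re V.norm.natAbs := by
    rw [qs_prim A hV gV, ← jacobiSym.mul_left]
    congr 1
    rw [hE]
    ring
  have i1 : NeZero A.norm.natAbs := ⟨Int.natAbs_ne_zero.2 hpA.ne'⟩
  have i2 : NeZero V.norm.natAbs := ⟨Int.natAbs_ne_zero.2 hpV.ne'⟩
  -- `E` is prime to both norms
  have hEA : Int.gcd E A.norm.natAbs = 1 := by
    by_contra hne
    have h1 : jacobiSym E A.norm.natAbs = 0 := jacobiSym.eq_zero_iff_not_coprime.2 hne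
    rw [h1, zero_mul] at e1
    rcases qs_pm hA h.symm with h2 | h2 <;> omega
  have hEV : Int.gcd E V.norm.natAbs = 1 := by
    by_contra hne
    have h1 : jacobiSym E V.norm.natAbs = 0 := jacobiSym.eq_zero_iff_not_coprime.2 hne
    rw [h1, zero_mul] at e2
    rcases qs_pm hV h with h2 | h2 <;> omega
  have e3 : jacobiSym E V.norm.natAbs * jacobiSym E A.norm.natAbs =
      s4 E ((A.re ^ 2 + 2 * A.im ^ 2) * (V.re ^ 2 + 2 * V.im ^ 2)) * c8 E := by
    rw [mul_comm, ← jacobiSym.mul_right, jac_recip E hEodd _ (by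
      have h1 : Odd A.norm.natAbs := by
        rw [Int.natAbs_odd]
        exact Int.odd_iff.2 hA
      have h2 : Odd V.norm.natAbs := by
        rw [Int.natAbs_odd]
        exact Int.odd_iff.2 hV
      exact Nat.odd_iff.1 (h1.mul h2)), Nat.cast_mul, hnA, hnV]
    congr 1
    set D := A.im * V.re - A.re * V.im with hD
    have h1 : jacobiSym ((A.re ^ 2 + 2 * A.im ^ 2) * (V.re ^ 2 + 2 * V.im ^ 2)) E.natAbs =
        jacobiSym (2 * D ^ 2) E.natAbs := by
      rw [jacobiSym.mod_left, jacobiSym.mod_left (2 * D ^ 2)]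
      congr 1
      apply Int.ModEq.symm
      rw [Int.modEq_iff_dvd]
      have : (A.re ^ 2 + 2 * A.im ^ 2) * (V.re ^ 2 + 2 * V.im ^ 2) - 2 * D ^ 2 = E * E := by
        rw [hD, hE]
        ring
      rw [this]
      exact (Int.natAbs_dvd.2 (dvd_refl _)).mul_right _
    rw [h1, jacobiSym.mul_left, jacobiSym.pow_left, jac_two _ hEodd]
    have h2 : Int.gcd D (E.natAbs : ℤ) = 1 := by
      by_contra hne
      obtain ⟨p, hp, hd⟩ := Nat.exists_prime_and_dvd hne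
      have h3 : (p : ℤ) ∣ D := (Int.natCast_dvd_natCast.2 hd).trans (Int.gcd_dvd_left _ _)
      have h4 : (p : ℤ) ∣ E :=
        Int.dvd_natAbs.1 ((Int.natCast_dvd_natCast.2 hd).trans (Int.gcd_dvd_right _ _))
      have hp' : Prime (p : ℤ) := Nat.prime_iff_prime_int.1 hp
      have h5 : ¬ (p : ℤ) ∣ A.norm := by
        intro h6
        have h7 : (p : ℤ) ∣ ((A.norm.natAbs : ℕ) : ℤ) := Int.dvd_natAbs.2 h6
        have h8 := Int.dvd_coe_gcd h4 h7
        rw [hEA] at h8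
        have h9 : p ∣ 1 := by exact_mod_cast h8
        exact hp.one_lt.ne' (Nat.dvd_one.1 h9)
      have h6 : (p : ℤ) ∣ A.norm * V.re := by
        have : A.norm * V.re = A.re * E + 2 * A.im * D := by
          rw [nv, hE, hD]
          ring
        rw [this]
        exact dvd_add (h4.mul_left _) (h3.mul_left _)
      have h7 : (p : ℤ) ∣ A.norm * V.im := by
        have : A.norm * V.im = A.im * E - A.re * D := by
          rw [nv, hE, hD]
          ring
        rw [this]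
        exact dvd_sub (h4.mul_left _) (h3.mul_left _)
      have h8 := (hp'.dvd_or_dvd h6).resolve_left h5
      have h9 := (hp'.dvd_or_dvd h7).resolve_left h5
      have h10 := Int.dvd_coe_gcd h8 h9
      rw [gV] at h10
      have h11 : p ∣ 1 := by exact_mod_cast h10
      exact hp.one_lt.ne' (Nat.dvd_one.1 h11)
    rw [jacobiSym.sq_one h2, mul_one]
  have hmain := main_int A.re A.im V.re V.im hAr hVr
  rw [← hE] at hmain
  calc qs A V * qs V A = (jacobiSym E V.norm.natAbs * jacobiSym E A.norm.natAbs) *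
        jacobiSym A.re A.norm.natAbs * jacobiSym V.re V.norm.natAbs := by
        rw [e1, e2]
        ring
    _ = rho A V := by
        rw [e3, jac_re hA gA, jac_re hV gV]
        exact hmain

/-- the primitive part -/
theorem prim_part {A : Zs} (hA : A.norm % 2 = 1) : ∃ (g : ℕ) (A' : Zs), A = (g : Zs) * A' ∧
    g % 2 = 1 ∧ Int.gcd A'.re A'.im = 1 ∧ A'.norm % 2 = 1 := by
  have hre := re_odd hA
  set g := Int.gcd A.re A.im with hg
  have hgpos : 0 < g := Int.gcd_pos_of_ne_zero_left _ (by omega)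
  obtain ⟨a, ha⟩ := Int.gcd_dvd_left A.re A.im
  obtain ⟨b, hb⟩ := Int.gcd_dvd_right A.re A.im
  rw [← hg] at ha hb
  have h1 : A = (g : Zs) * ⟨a, b⟩ := by
    ext
    · simp [ha]
    · simp [hb]
  have hgc : Int.gcd a b = 1 := by
    have h2 : g = g * Int.gcd a b := by
      conv_lhs => rw [hg, ha, hb]
      rw [Int.gcd_mul_left, Int.natAbs_natCast]
    exact (Nat.eq_of_mul_eq_mul_left hgpos (by rw [mul_one]; exact h2)).symm
  have hodd : Odd (g : ℤ) := by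
    have : Odd ((g : ℤ) * a) := by
      rw [← ha]
      exact Int.odd_iff.2 hre
    exact (Int.odd_mul.1 this).1
  refine ⟨g, ⟨a, b⟩, h1, ?_, hgc, ?_⟩
  · rw [Int.odd_iff] at hodd
    omega
  · exact norm_odd_of_dvd (Dvd.intro_left _ h1.symm) hA

theorem nat_norm {g : ℕ} (hg : g % 2 = 1) : ((g : Zs)).norm % 2 = 1 := by
  rw [Zsqrtd.norm_natCast]
  have := (Nat.odd_iff.2 hg).mul (Nat.odd_iff.2 hg)
  exact_mod_cast Nat.odd_iff.1 this

theorem qs_nat_right (x : Zs) {q : ℕ} (hq : q % 2 = 1) : qs x (q : Zs) = jacobiSym x.norm q := by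
  have h := qs_rat x (q := (q : ℤ)) (by omega)
  rw [Int.natAbs_natCast, Int.cast_natCast] at h
  exact h

theorem qs_nat_left (q : ℕ) {y : Zs} (hy : y.norm % 2 = 1) :
    qs (q : Zs) y = jacobiSym q y.norm.natAbs := by
  have h := qs_int (q : ℤ) hy
  rw [Int.cast_natCast] at h
  exact h

theorem recip_nat_nat {g h : ℕ} (hh : h % 2 = 1)
    (hc : IsCoprime (g : Zs) (h : Zs)) : qs (g : Zs) (h : Zs) = 1 := by
  have h1 := qs_nat_right (g : Zs) hh
  rw [Zsqrtd.norm_natCast, jacobiSym.mul_left] at h1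
  rcases qs_pm (nat_norm hh) hc with h2 | h2
  · exact h2
  · rw [h2] at h1
    nlinarith [sq_nonneg (jacobiSym (g : ℤ) h)]

theorem recip_nat {g : ℕ} (hg : g % 2 = 1) {V : Zs} (hV : V.norm % 2 = 1)
    (hc : IsCoprime (g : Zs) V) : qs (g : Zs) V * qs V (g : Zs) = rho (g : Zs) V := by
  have hpV := n_pos (ne_zero_of_odd hV)
  have hnV : ((V.norm.natAbs : ℕ) : ℤ) = V.re ^ 2 + 2 * V.im ^ 2 := by
    rw [Int.natAbs_of_nonneg hpV.le, nv]
  have h1 := qs_nat_right V hg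
  have h2 := qs_nat_left g hV
  rw [jac_recip (g : ℤ) (by omega) _ (by omega), Int.natAbs_natCast,
    Int.natAbs_of_nonneg hpV.le] at h2
  rw [h2, ← h1, mul_assoc]
  have h3 : qs V (g : Zs) * qs V (g : Zs) = 1 := by
    rcases qs_pm (nat_norm hg) hc.symm with h4 | h4 <;> rw [h4] <;> norm_num
  rw [h3, mul_one]
  have hVr := re_odd hV
  obtain ⟨kV, hkV⟩ : ∃ k, V.re = 2 * k + 1 := ⟨V.re / 2, by omega⟩
  unfold s4 rho
  rw [Zsqrtd.re_natCast, Zsqrtd.im_natCast]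
  rcases Int.emod_two_eq_zero_or_one V.im with h5 | h5
  · obtain ⟨l, hl⟩ : ∃ l, V.im = 2 * l := ⟨V.im / 2, by omega⟩
    have : V.norm = 4 * (kV ^ 2 + kV + 2 * l ^ 2) + 1 := by
      rw [nv, hkV, hl]
      ring
    rw [if_pos (Or.inr (by omega)), if_pos (by norm_num), if_pos h5]
  · obtain ⟨l, hl⟩ : ∃ l, V.im = 2 * l + 1 := ⟨V.im / 2, by omega⟩
    have : V.norm = 4 * (kV ^ 2 + kV + 2 * l ^ 2 + 2 * l) + 3 := by
      rw [nv, hkV, hl]
      ring
    rw [if_pos (c := (0 : ℤ) % 2 = 0) (by norm_num), if_neg (c := V.im % 2 = 0) (by omega)]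
    split_ifs <;> first | rfl | omega

end Z33

theorem qs_recip {x y : Zs} (hx : x.norm % 2 = 1) (hy : y.norm % 2 = 1) (h : IsCoprime x y) :
    qs x y * qs y x = rho x y := by
  obtain ⟨g, A, rfl, hg, gA, hA⟩ := prim_part hx
  obtain ⟨k, V, rfl, hk, gV, hV⟩ := prim_part hy
  have hg' := nat_norm hg
  have hk' := nat_norm hk
  have c1 : IsCoprime (g : Zs) (k : Zs) := h.of_mul_left_left.of_mul_right_left
  have c2 : IsCoprime (g : Zs) V := h.of_mul_left_left.of_mul_right_right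
  have c3 : IsCoprime A (k : Zs) := h.of_mul_left_right.of_mul_right_left
  have c4 : IsCoprime A V := h.of_mul_left_right.of_mul_right_right
  have n1 := ne_zero_of_odd hg'
  have n2 := ne_zero_of_odd hk'
  have n3 := ne_zero_of_odd hA
  have n4 := ne_zero_of_odd hV
  rw [qs_mul_left _ _ hy, qs_mul_left _ _ hx, qs_mul_right _ n2 n4, qs_mul_right _ n2 n4,
    qs_mul_right _ n1 n3, qs_mul_right _ n1 n3, rho_mul_left hg' hA hy, rho_comm (g : Zs),
    rho_comm A, rho_mul_left hk' hV hg', rho_mul_left hk' hV hA]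
  have r1 := recip_nat_nat hk c1
  have r2 := recip_nat_nat hg c1.symm
  have r3 := recip_nat hg hV c2
  have r4 := recip_nat hk hA c3.symm
  have r5 := recip_prim hA hV gA gV c4
  have r6 : rho (k : Zs) (g : Zs) = 1 := by
    unfold rho
    rw [Zsqrtd.im_natCast, Zsqrtd.im_natCast, if_pos (by norm_num), if_pos (by norm_num)]
  rw [r6, r1, r2, rho_comm V (g : Zs), rho_comm V A, ← r3, ← r4, ← r5]
  ring

namespace Z33

theorem jac_even (N : ℕ) (hN : N % 8 = 1) (n : ℕ) : ∀ (a b : ℤ), b.natAbs ≤ n → b ≠ 0 →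
    b ∣ N - a ^ 2 → Int.gcd a b = 1 → jacobiSym b N = 1 := by
  induction n with
  | zero =>
    intro a b h1 h2
    exact absurd (Int.natAbs_eq_zero.1 (Nat.le_zero.1 h1)) h2
  | succ n ih =>
    intro a b h1 h2 h3 h4
    rcases Int.emod_two_eq_zero_or_one b with h5 | h5
    · obtain ⟨c, rfl⟩ : ∃ c, b = 2 * c := ⟨b / 2, by omega⟩
      have h6 := ih a c (by omega) (by omega) ((Dvd.intro_left 2 rfl).trans h3) (by
        have h7 : Int.gcd a c ∣ Int.gcd a (2 * c) :=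
          Nat.dvd_gcd (Nat.gcd_dvd_left _ _) ((Nat.gcd_dvd_right _ _).trans (by
            rw [Int.natAbs_mul]
            exact Dvd.intro_left _ rfl))
        rw [h4] at h7
        exact Nat.dvd_one.1 h7)
      have h8 := jac_two (N : ℤ) (by omega)
      rw [Int.natAbs_natCast] at h8
      rw [jacobiSym.mul_left, h6, mul_one, h8]
      unfold c8
      rw [if_pos (by omega)]
    · rw [jac_recip b h5 N (by omega)]
      have h6 : jacobiSym (N : ℤ) b.natAbs = jacobiSym (a ^ 2) b.natAbs := by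
        rw [jacobiSym.mod_left, jacobiSym.mod_left (a ^ 2)]
        congr 1
        apply Int.ModEq.symm
        rw [Int.modEq_iff_dvd]
        exact Int.natAbs_dvd.2 h3
      have h7 : Int.gcd a (b.natAbs : ℤ) = 1 := by
        rw [← h4]
        unfold Int.gcd
        rw [Int.natAbs_natCast]
      rw [h6, jacobiSym.pow_left, jacobiSym.sq_one h7, mul_one]
      unfold s4
      rw [if_pos (by omega)]

end Z33

/-- the supplementary law for `s`, on `Op` -/
theorem qs_sq {y : Zs} (hy : Op y) : qs sq y = jacobiSym 2 y.re.natAbs := by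
  obtain ⟨hy1, hy2⟩ := hy
  have hyn : y.norm % 2 = 1 := by
    obtain ⟨k, hk⟩ : ∃ k, y.re = 2 * k + 1 := ⟨y.re / 2, by omega⟩
    have : y.norm = 2 * (2 * k ^ 2 + 2 * k + y.im ^ 2) + 1 := by
      rw [nv, hk]
      ring
    omega
  obtain ⟨g, A, rfl, hg, gA, hA⟩ := prim_part hyn
  have hg' := nat_norm hg
  have n1 := ne_zero_of_odd hg'
  have n3 := ne_zero_of_odd hA
  have hre : ((g : Zs) * A).re = g * A.re := by simp
  have him : ((g : Zs) * A).im = g * A.im := by simp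
  rw [hre] at hy1
  rw [him] at hy2
  have hAre := re_odd hA
  have hAim : A.im % 2 = 0 := by
    have h1 : Even ((g : ℤ) * A.im) := Int.even_iff.2 hy2
    rcases Int.even_mul.1 h1 with h2 | h2
    · rw [Int.even_iff] at h2
      omega
    · exact Int.even_iff.1 h2
  have hsn : (sq : Zs).norm = 2 := by
    rw [nv]
    norm_num
  have i1 : NeZero g := ⟨by omega⟩
  have i2 : NeZero A.re.natAbs := ⟨by omega⟩
  rw [qs_mul_right _ n1 n3, hre, Int.natAbs_mul, Int.natAbs_natCast, jacobiSym.mul_right,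
    qs_nat_right _ hg, hsn]
  congr 1
  have hpos := n_pos n3
  have hnn : ((A.norm.natAbs : ℕ) : ℤ) = A.re ^ 2 + 2 * A.im ^ 2 := by
    rw [Int.natAbs_of_nonneg hpos.le, nv]
  have h8 : A.norm.natAbs % 8 = 1 := by
    obtain ⟨k, hk⟩ : ∃ k, A.re = 2 * k + 1 := ⟨A.re / 2, by omega⟩
    obtain ⟨l, hl⟩ : ∃ l, A.im = 2 * l := ⟨A.im / 2, by omega⟩
    have h9 : (k ^ 2 + k) % 2 = 0 := by
      have := Int.even_mul_succ_self k
      rw [Int.even_iff] at this
      have e : k ^ 2 + k = k * (k + 1) := by ring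
      rw [e]
      exact this
    have : ((A.norm.natAbs : ℕ) : ℤ) = 4 * (k ^ 2 + k) + 8 * l ^ 2 + 1 := by
      rw [hnn, hk, hl]
      ring
    omega
  rw [qs_prim _ hA gA]
  have e0 : ((sq : Zs).re * A.re + 2 * (sq : Zs).im * A.im) * A.re = 2 * A.im * A.re := by
    show ((0 : ℤ) * A.re + 2 * 1 * A.im) * A.re = 2 * A.im * A.re
    ring
  rw [e0, jacobiSym.mul_left, jacobiSym.mul_left, jac_re hA gA, jac_two _ hAre]
  have h2N := jac_two ((A.norm.natAbs : ℕ) : ℤ) (by omega)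
  rw [Int.natAbs_natCast] at h2N
  have hc8 : c8 ((A.norm.natAbs : ℕ) : ℤ) = 1 := by
    unfold c8
    rw [if_pos (by omega)]
  have hs4 : s4 A.re (A.re ^ 2 + 2 * A.im ^ 2) = 1 := by
    rw [← hnn]
    unfold s4
    rw [if_pos (by omega)]
  rw [h2N, hc8, hs4, one_mul, one_mul]
  by_cases h0 : A.im = 0
  · have h1 : A.re.natAbs = 1 := by
      rw [h0, Int.gcd_zero_right] at gA
      exact gA
    have h2 : A.norm.natAbs = 1 := by
      have h3 : A.re * A.re = 1 := by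
        rcases Int.natAbs_eq A.re with h3 | h3 <;> rw [h3, h1] <;> norm_num
      have : ((A.norm.natAbs : ℕ) : ℤ) = 1 := by
        rw [hnn, h0]
        linarith
      exact_mod_cast this
    rw [h2, jacobiSym.one_right, one_mul]
  · rw [jac_even A.norm.natAbs h8 A.im.natAbs A.re A.im le_rfl h0 ⟨2 * A.im, by
      rw [hnn]
      ring⟩ gA, one_mul]

end Pool.Agent.TM32
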