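import Pool.Agent.Lib_helper51.TM32.Defs2
import Pool.Agent.Lib_helper33.TM32.Z2

/-!
# TM32, block K3: Jacobi symbols (helper33)
-/

set_option autoImplicit false

namespace Pool.Agent.TM32

open Z33

namespace K33

theorem jr {x : ℤ} (hx : x % 2 = 1) {M : ℕ} (hM : M % 4 = 1) :
    jacobiSym x M = jacobiSym M x.natAbs := by
  rw [jac_recip x hx M (by omega)]
  unfold s4
  rw [if_pos (by omega), one_mul]

theorem two_part {t : ℤ} (ht : t ≠ 0) : ∃ (k : ℕ) (t' : ℤ), t' % 2 = 1 ∧ t = 2 ^ k * t' := by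
  obtain ⟨k, n, hn, h⟩ := Nat.exists_eq_two_pow_mul_odd (Int.natAbs_ne_zero.2 ht)
  rw [Nat.odd_iff] at hn
  rcases Int.natAbs_eq t with h1 | h1
  · refine ⟨k, n, by omega, ?_⟩
    rw [h1, h]
    push_cast
    ring
  · refine ⟨k, -n, by omega, ?_⟩
    rw [h1, h]
    push_cast
    ring

theorem jac_congr {a b : ℤ} {n : ℕ} (h : (n : ℤ) ∣ a - b) : jacobiSym a n = jacobiSym b n := by
  rw [jacobiSym.mod_left, jacobiSym.mod_left b]
  congr 1
  exact (Int.modEq_iff_dvd.2 h).symm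

theorem jac_sq {a : ℤ} {n : ℕ} (h : IsCoprime a (n : ℤ)) : jacobiSym (a ^ 2) n = 1 := by
  rw [jacobiSym.pow_left]
  exact jacobiSym.sq_one (Int.isCoprime_iff_gcd_eq_one.1 h)

theorem natAbs_co {a t : ℤ} (h : IsCoprime a t) : IsCoprime a ((t.natAbs : ℕ) : ℤ) := by
  rw [Int.isCoprime_iff_gcd_eq_one] at h ⊢
  unfold Int.gcd at h ⊢
  rw [Int.natAbs_natCast]
  exact h

end K33

open K33

/-- K3, Jacobi symbols -/
theorem jac_step {p : ℕ} (hp : p.Prime) (h8 : p % 8 = 1) {e f m t y : ℤ} (he : 0 < e)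
    (he4 : e % 4 = 1) (hpef : (p : ℤ) = 2 * e ^ 2 - f ^ 2) (hm : 0 < m) (hm2 : m % 2 = 1)
    (h : e * m ^ 2 = t ^ 2 + p * y ^ 2) (hty : IsCoprime t y) (ht : e ∣ t - f * y) :
    ((e : ZMod p)) ^ ((p - 1) / 4) = ((jacobiSym f e.natAbs * jacobiSym 2 e.natAbs *
      (if m % 4 = 1 then 1 else -1) : ℤ) : ZMod p) := by
  have hpp : Prime (p : ℤ) := Nat.prime_iff_prime_int.1 hp
  have hp2 := hp.two_le
  -- `p` does not divide `m`
  have hpm : ¬ (p : ℤ) ∣ m := by
    intro h1
    have h2 : (p : ℤ) ∣ t ^ 2 := by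
      have : t ^ 2 = e * m ^ 2 - p * y ^ 2 := by linarith
      rw [this]
      exact dvd_sub ((dvd_pow h1 two_ne_zero).mul_left _) (Dvd.intro _ rfl)
    have h3 := hpp.dvd_of_dvd_pow h2
    obtain ⟨a, ha⟩ := h1
    obtain ⟨b, hb⟩ := h3
    have h4 : (p : ℤ) ∣ y ^ 2 := by
      refine ⟨e * a ^ 2 - b ^ 2, ?_⟩
      rw [ha, hb] at h
      have hp0 : (p : ℤ) ≠ 0 := hpp.ne_zero
      apply mul_left_cancel₀ hp0
      linear_combination -h
    have h5 := hpp.dvd_of_dvd_pow h4
    have h6 := hty.isUnit_of_dvd' (Dvd.intro _ hb.symm) h5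
    exact hpp.not_isUnit h6
  have hpe : ¬ (p : ℤ) ∣ e := by
    intro h1
    have h2 : (p : ℤ) ∣ f ^ 2 := by
      have : f ^ 2 = 2 * e ^ 2 - p := by linarith
      rw [this]
      exact dvd_sub ((dvd_pow h1 two_ne_zero).mul_left _) (dvd_refl _)
    have h3 := hpp.dvd_of_dvd_pow h2
    obtain ⟨a, ha⟩ := h1
    obtain ⟨b, hb⟩ := h3
    have h4 : (p : ℤ) * (1 - p * (2 * a ^ 2 - b ^ 2)) = 0 := by
      rw [ha, hb] at hpef
      linear_combination hpef
    rcases mul_eq_zero.1 h4 with h5 | h5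
    · exact hpp.ne_zero h5
    · exact hpp.not_isUnit (IsUnit.of_mul_eq_one (2 * a ^ 2 - b ^ 2) (by linarith))
  have hpt : ¬ (p : ℤ) ∣ t := by
    intro h1
    have h2 : (p : ℤ) ∣ e * m ^ 2 := by
      rw [h]
      exact dvd_add (dvd_pow h1 two_ne_zero) (Dvd.intro _ rfl)
    rcases hpp.dvd_or_dvd h2 with h3 | h3
    · exact hpe h3
    · exact hpm (hpp.dvd_of_dvd_pow h3)
  have ht0 : t ≠ 0 := by
    rintro rfl
    exact hpt (dvd_zero _)
  have hy0 : y ≠ 0 := by
    rintro rfl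
    have h1 := isCoprime_zero_right.1 hty
    have h2 : t ^ 2 = 1 := by
      rcases Int.isUnit_iff.1 h1 with h2 | h2 <;> rw [h2] <;> norm_num
    rw [h2] at h
    have h3 : e = 1 := by nlinarith
    rw [h3] at hpef
    have h9 : (9 : ℤ) ≤ p := by omega
    nlinarith [sq_nonneg f]
  -- coprimality
  have hmy : IsCoprime m y := by
    rw [Int.isCoprime_iff_gcd_eq_one]
    by_contra hne
    obtain ⟨l, hl, hd⟩ := Nat.exists_prime_and_dvd hne
    have hl' : Prime (l : ℤ) := Nat.prime_iff_prime_int.1 hl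
    have h1 : (l : ℤ) ∣ m := (Int.natCast_dvd_natCast.2 hd).trans (Int.gcd_dvd_left _ _)
    have h2 : (l : ℤ) ∣ y := (Int.natCast_dvd_natCast.2 hd).trans (Int.gcd_dvd_right _ _)
    have h3 : (l : ℤ) ∣ t ^ 2 := by
      have : t ^ 2 = e * m ^ 2 - p * y ^ 2 := by linarith
      rw [this]
      exact dvd_sub ((dvd_pow h1 two_ne_zero).mul_left _) ((dvd_pow h2 two_ne_zero).mul_left _)
    exact hl'.not_isUnit (hty.isUnit_of_dvd' (hl'.dvd_of_dvd_pow h3) h2)
  have htm : IsCoprime t m := by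
    rw [Int.isCoprime_iff_gcd_eq_one]
    by_contra hne
    obtain ⟨l, hl, hd⟩ := Nat.exists_prime_and_dvd hne
    have hl' : Prime (l : ℤ) := Nat.prime_iff_prime_int.1 hl
    have h1 : (l : ℤ) ∣ t := (Int.natCast_dvd_natCast.2 hd).trans (Int.gcd_dvd_left _ _)
    have h2 : (l : ℤ) ∣ m := (Int.natCast_dvd_natCast.2 hd).trans (Int.gcd_dvd_right _ _)
    have h3 : (l : ℤ) ∣ p * y ^ 2 := by
      have : p * y ^ 2 = e * m ^ 2 - t ^ 2 := by linarith
      rw [this]
      exact dvd_sub ((dvd_pow h2 two_ne_zero).mul_left _) (dvd_pow h1 two_ne_zero)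
    rcases hl'.dvd_or_dvd h3 with h4 | h4
    · have h5 : l = p := (Nat.prime_dvd_prime_iff_eq hl hp).1 (by exact_mod_cast h4)
      rw [h5] at h1
      exact hpt h1
    · exact hl'.not_isUnit (hty.isUnit_of_dvd' h1 (hl'.dvd_of_dvd_pow h4))
  obtain ⟨k, t', ht', hkt⟩ := two_part ht0
  obtain ⟨j, y', hy', hjy⟩ := two_part hy0
  have ct' : ∀ {a : ℤ}, IsCoprime a t → IsCoprime a t' := by
    intro a ha
    rw [hkt] at ha
    exact ha.of_mul_right_right
  have cy' : ∀ {a : ℤ}, IsCoprime a y → IsCoprime a y' := by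
    intro a ha
    rw [hjy] at ha
    exact ha.of_mul_right_right
  have hn : ((e.natAbs : ℕ) : ℤ) = e := Int.natAbs_of_nonneg he.le
  have hn4 : e.natAbs % 4 = 1 := by omega
  have i0 : NeZero e.natAbs := ⟨by omega⟩
  have h2p : jacobiSym 2 p = 1 := by
    have := jac_two (p : ℤ) (by omega)
    rw [Int.natAbs_natCast] at this
    rw [this]
    unfold c8
    rw [if_pos (by omega)]
  have hmn : ((m.natAbs : ℕ) : ℤ) = m := Int.natAbs_of_nonneg hm.le
  -- `(m/p)`
  have s1 : jacobiSym m p = if m % 4 = 1 then 1 else -1 := by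
    rw [jr hm2 (by omega)]
    have h1 : jacobiSym (p : ℤ) m.natAbs = jacobiSym (-1) m.natAbs := by
      have h2 : jacobiSym (p * y ^ 2) m.natAbs = jacobiSym ((-1) * t ^ 2) m.natAbs := by
        apply jac_congr
        rw [hmn]
        exact ⟨e * m, by linear_combination -h⟩
      rw [jacobiSym.mul_left, jacobiSym.mul_left, jac_sq (natAbs_co hmy.symm),
        jac_sq (natAbs_co htm), mul_one, mul_one] at h2
      exact h2
    rw [h1, jacobiSym.at_neg_one (Nat.odd_iff.2 (by omega))]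
    split_ifs with h3
    · exact ZMod.χ₄_nat_one_mod_four (by omega)
    · exact ZMod.χ₄_nat_three_mod_four (by omega)
  -- `(t/p)`
  have s2 : jacobiSym t p = jacobiSym t' e.natAbs := by
    rw [hkt, jacobiSym.mul_left, jacobiSym.pow_left, h2p, one_pow, one_mul, jr ht' (by omega),
      jr ht' hn4, hn]
    have h2 : jacobiSym (p * y ^ 2) t'.natAbs = jacobiSym (e * m ^ 2) t'.natAbs := by
      apply jac_congr
      rw [Int.natAbs_dvd]
      refine ⟨-(2 ^ k * t), ?_⟩
      have : t ^ 2 = t' * (2 ^ k * t) := by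
        rw [pow_two]
        nth_rewrite 1 [hkt]
        ring
      linear_combination -h - this
    rw [jacobiSym.mul_left, jacobiSym.mul_left, jac_sq (natAbs_co (ct' hty.symm)),
      jac_sq (natAbs_co (ct' htm.symm)), mul_one, mul_one] at h2
    exact h2
  have s3 : jacobiSym y' e.natAbs = 1 := by
    rw [jr hy' hn4, hn]
    have h2 : jacobiSym (e * m ^ 2) y'.natAbs = jacobiSym (t ^ 2) y'.natAbs := by
      apply jac_congr
      rw [Int.natAbs_dvd]
      refine ⟨p * (2 ^ j * y), ?_⟩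
      have : y ^ 2 = y' * (2 ^ j * y) := by
        rw [pow_two]
        nth_rewrite 1 [hjy]
        ring
      linear_combination h + p * this
    rw [jacobiSym.mul_left, jac_sq (natAbs_co (cy' hmy)), jac_sq (natAbs_co (cy' hty)),
      mul_one] at h2
    exact h2
  have s4 : jacobiSym 2 e.natAbs ^ k * jacobiSym t' e.natAbs =
      jacobiSym f e.natAbs * jacobiSym 2 e.natAbs ^ j := by
    have h1 : jacobiSym t e.natAbs = jacobiSym (f * y) e.natAbs := by
      apply jac_congr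
      rw [hn]
      exact ht
    conv_lhs at h1 => rw [hkt]
    rw [hjy] at h1
    rw [jacobiSym.mul_left, jacobiSym.mul_left, jacobiSym.mul_left, jacobiSym.pow_left,
      jacobiSym.pow_left, s3, mul_one] at h1
    exact h1
  have hsq2 : jacobiSym 2 e.natAbs = c8 e := jac_two e (by omega)
  have s5 : jacobiSym t' e.natAbs = jacobiSym f e.natAbs * jacobiSym 2 e.natAbs := by
    rw [hsq2] at s4 ⊢
    by_cases h1 : e % 8 = 1
    · have : c8 e = 1 := by
        unfold c8
        rw [if_pos (by omega)]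
      rw [this, one_pow, one_pow, one_mul] at s4
      rw [this]
      exact s4
    · have h5 : e % 8 = 5 := by omega
      have hc : c8 e = -1 := by
        unfold c8
        rw [if_neg (by omega)]
      rw [hc] at s4 ⊢
      -- exactly one of `k, j` is one, the other zero
      obtain ⟨m1, hm1⟩ : ∃ m1, m = 2 * m1 + 1 := ⟨m / 2, by omega⟩
      obtain ⟨p1, hp1⟩ : ∃ p1 : ℤ, (p : ℤ) = 8 * p1 + 1 := ⟨(p : ℤ) / 8, by omega⟩
      obtain ⟨e1, he1⟩ : ∃ e1, e = 8 * e1 + 5 := ⟨e / 8, by omega⟩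
      have hm8 : (m1 ^ 2 + m1) % 2 = 0 := by
        have h3 := Int.even_mul_succ_self m1
        rw [Int.even_iff] at h3
        have e2 : m1 ^ 2 + m1 = m1 * (m1 + 1) := by ring
        rw [e2]
        exact h3
      obtain ⟨m2, hm2'⟩ : ∃ m2, m1 ^ 2 + m1 = 2 * m2 := ⟨(m1 ^ 2 + m1) / 2, by omega⟩
      have hmod : (t ^ 2 + y ^ 2) % 8 = 5 := by
        have : t ^ 2 + y ^ 2 = 8 * (e1 * m ^ 2 + 5 * m2 - p1 * y ^ 2) + 5 := by
          have h3 : m ^ 2 = 8 * m2 + 1 := by
            rw [hm1]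
            linear_combination 4 * hm2'
          rw [hp1, he1] at h
          linear_combination -h + 5 * h3
        omega
      have hodd : ∀ {x : ℤ}, x % 2 = 1 → x ^ 2 % 8 = 1 := by
        intro x hx
        obtain ⟨x1, hx1⟩ : ∃ x1, x = 2 * x1 + 1 := ⟨x / 2, by omega⟩
        have h3 := Int.even_mul_succ_self x1
        rw [Int.even_iff] at h3
        have e2 : x ^ 2 = 4 * (x1 * (x1 + 1)) + 1 := by rw [hx1]; ring
        omega
      -- parity of the exponents
      have key : ∀ (i : ℕ) (x x' : ℤ), x' % 2 = 1 → x = 2 ^ i * x' →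
          (i = 0 ∧ x ^ 2 % 8 = 1) ∨ (i = 1 ∧ x ^ 2 % 8 = 4) ∨ (2 ≤ i ∧ x ^ 2 % 8 = 0) := by
        intro i x x' hx' hx
        rcases i with _ | _ | i
        · left
          rw [pow_zero, one_mul] at hx
          exact ⟨rfl, by rw [hx]; exact hodd hx'⟩
        · right
          left
          refine ⟨rfl, ?_⟩
          have h3 := hodd hx'
          have h4 : x ^ 2 = 4 * x' ^ 2 := by
            rw [hx]
            ring
          omega
        · right
          right
          refine ⟨by omega, ?_⟩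
          have h4 : x ^ 2 = 8 * (2 * (2 ^ i) ^ 2 * x' ^ 2) := by
            rw [hx]
            ring
          omega
      have h6 := key k t t' ht' hkt
      have h7 := key j y y' hy' hjy
      rcases h6 with ⟨h6, h6'⟩ | ⟨h6, h6'⟩ | ⟨h6, h6'⟩
      · rcases h7 with ⟨h7, h7'⟩ | ⟨h7, h7'⟩ | ⟨h7, h7'⟩
        · omega
        · rw [h6, h7, pow_zero, pow_one, one_mul] at s4
          exact s4
        · omega
      · rcases h7 with ⟨h7, h7'⟩ | ⟨h7, h7'⟩ | ⟨h7, h7'⟩
        · rw [h6, h7, pow_zero, pow_one, mul_one] at s4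
          linarith
        · omega
        · omega
      · rcases h7 with ⟨h7, h7'⟩ | ⟨h7, h7'⟩ | ⟨h7, h7'⟩ <;> omega
  -- Euler's criterion
  have : Fact p.Prime := ⟨hp⟩
  have e1 : ((jacobiSym m p : ℤ) : ZMod p) = (m : ZMod p) ^ (p / 2) := by
    rw [← jacobiSym.legendreSym.to_jacobiSym]
    exact legendreSym.eq_pow p m
  have e2 : ((jacobiSym t p : ℤ) : ZMod p) = (t : ZMod p) ^ (p / 2) := by
    rw [← jacobiSym.legendreSym.to_jacobiSym]
    exact legendreSym.eq_pow p t
  have e3 : (e : ZMod p) * (m : ZMod p) ^ 2 = (t : ZMod p) ^ 2 := by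
    have := congrArg (fun z : ℤ => (z : ZMod p)) h
    push_cast at this
    rw [ZMod.natCast_self, zero_mul, add_zero] at this
    exact this
  have e4 : p / 2 = 2 * ((p - 1) / 4) := by omega
  have e5 : (e : ZMod p) ^ ((p - 1) / 4) * ((jacobiSym m p : ℤ) : ZMod p) =
      ((jacobiSym t p : ℤ) : ZMod p) := by
    rw [e1, e2, e4, pow_mul, pow_mul, ← mul_pow, e3]
  have e6 : ((jacobiSym m p : ℤ) : ZMod p) * ((jacobiSym m p : ℤ) : ZMod p) = 1 := by
    rw [s1]
    split_ifs <;> norm_num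
  calc (e : ZMod p) ^ ((p - 1) / 4) = (e : ZMod p) ^ ((p - 1) / 4) *
        (((jacobiSym m p : ℤ) : ZMod p) * ((jacobiSym m p : ℤ) : ZMod p)) := by rw [e6, mul_one]
    _ = ((jacobiSym t p : ℤ) : ZMod p) * ((jacobiSym m p : ℤ) : ZMod p) := by
        rw [← mul_assoc, e5]
    _ = _ := by
        rw [s2, s5, s1]
        push_cast
        ring

end Pool.Agent.TM32
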