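import Mathlib

/-!
# Zolotarev symbols (helper33, for project TM32)

`sg f`: the sign of the permutation `f` of a finite type, `0` if `f` is not bijective.
`zq V A`: the sign of the multiplication by `V` on `R / (A)`: the Jacobi symbol `(V / A)`.
-/

namespace Pool.Agent.Zolo33

open Function

section sg

variable {G H : Type*} [Finite G] [Finite H]

open Classical in
/-- sign of a self-map, zero if it is not bijective -/
noncomputable def sg (f : G → G) : ℤ :=
  haveI := Fintype.ofFinite G
  if h : Bijective f then ((Equiv.Perm.sign (Equiv.ofBijective f h) : ℤˣ) : ℤ) else 0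

theorem sg_perm [Fintype G] [DecidableEq G] (e : Equiv.Perm G) :
    sg (e : G → G) = ((Equiv.Perm.sign e : ℤˣ) : ℤ) := by
  unfold sg
  rw [dif_pos e.bijective]
  have h : Equiv.ofBijective (e : G → G) e.bijective = e := by
    ext x
    rfl
  rw [h]
  have e1 : ∀ (i1 i2 : DecidableEq G) (j1 j2 : Fintype G),
      @Equiv.Perm.sign G i1 j1 e = @Equiv.Perm.sign G i2 j2 e := by
    intro i1 i2 j1 j2
    obtain rfl : i1 = i2 := Subsingleton.elim _ _
    obtain rfl : j1 = j2 := Subsingleton.elim _ _
    rfl
  exact congrArg (fun z : ℤˣ => (z : ℤ)) (e1 _ _ _ _)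

theorem sg_of_not {f : G → G} (h : ¬ Bijective f) : sg f = 0 := by
  unfold sg
  rw [dif_neg h]

theorem sg_ne_zero {f : G → G} (h : Bijective f) : sg f = 1 ∨ sg f = -1 := by
  unfold sg
  rw [dif_pos h]
  rcases Int.units_eq_one_or (@Equiv.Perm.sign G (Classical.decEq G) (Fintype.ofFinite G)
    (Equiv.ofBijective f h)) with h1 | h1
  · left
    rw [h1]
    rfl
  · right
    rw [h1]
    rfl

theorem sg_id : sg (fun x : G => x) = 1 := by
  classical
  have := Fintype.ofFinite G
  have h := sg_perm (1 : Equiv.Perm G)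
  rw [Equiv.Perm.sign_one, Units.val_one] at h
  exact h

theorem sg_comp (f g : G → G) : sg (f ∘ g) = sg f * sg g := by
  classical
  have := Fintype.ofFinite G
  by_cases h : Bijective f ∧ Bijective g
  · have h1 := sg_perm (Equiv.ofBijective f h.1)
    have h2 := sg_perm (Equiv.ofBijective g h.2)
    have h3 := sg_perm (Equiv.ofBijective f h.1 * Equiv.ofBijective g h.2)
    rw [Equiv.Perm.sign_mul, Units.val_mul, ← h1, ← h2] at h3
    exact h3
  · have h1 : ¬ Bijective (f ∘ g) := by
      intro h2
      apply h
      have hg : Injective g := h2.1.of_comp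
      have hf : Surjective f := h2.2.of_comp
      exact ⟨Finite.injective_iff_bijective.1 (Finite.injective_iff_surjective.2 hf),
        Finite.injective_iff_bijective.1 hg⟩
    rw [sg_of_not h1]
    by_cases hf : Bijective f
    · rw [sg_of_not (f := g) fun hg => h ⟨hf, hg⟩, mul_zero]
    · rw [sg_of_not hf, zero_mul]

theorem sg_conj (e : G ≃ H) (f : G → G) (f' : H → H) (h : ∀ x, f' (e x) = e (f x)) :
    sg f' = sg f := by
  classical
  have := Fintype.ofFinite G
  have := Fintype.ofFinite H
  have hf' : f' = e ∘ f ∘ e.symm := by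
    funext y
    have := h (e.symm y)
    rw [Equiv.apply_symm_apply] at this
    exact this
  by_cases hb : Bijective f
  · have h1 := sg_perm (Equiv.ofBijective f hb)
    have h2 := sg_perm ((e.symm.trans (Equiv.ofBijective f hb)).trans e)
    have h3 : Equiv.Perm.sign ((e.symm.trans (Equiv.ofBijective f hb)).trans e) =
        Equiv.Perm.sign (Equiv.ofBijective f hb) :=
      Equiv.Perm.sign_symm_trans_trans (Equiv.ofBijective f hb) e
    rw [h3, ← h1] at h2
    rw [hf']
    exact h2
  · have hb' : ¬ Bijective f' := by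
      intro h1
      apply hb
      have : f = e.symm ∘ f' ∘ e := by
        funext x
        simp [h]
      rw [this]
      exact e.symm.bijective.comp (h1.comp e.bijective)
    rw [sg_of_not hb, sg_of_not hb']

/-- translations by elements of an odd group are even -/
theorem sign_addRight {N : Type*} [AddCommGroup N] [Fintype N] [DecidableEq N]
    (h : Odd (Fintype.card N)) (c : N) : Equiv.Perm.sign (Equiv.addRight c) = 1 := by
  have h1 : (Equiv.addRight c : Equiv.Perm N) ^ Fintype.card N = 1 := by
    ext x
    have h2 : ∀ k : ℕ, ((Equiv.addRight c : Equiv.Perm N) ^ k) x = x + k • c := by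
      intro k
      induction k with
      | zero => simp
      | succ k ih =>
        rw [pow_succ', Equiv.Perm.mul_apply, ih, succ_nsmul, ← add_assoc]
        rfl
    rw [h2, card_nsmul_eq_zero, add_zero]
    rfl
  have h3 := congrArg Equiv.Perm.sign h1
  rw [map_pow, map_one] at h3
  rcases Int.units_eq_one_or (Equiv.Perm.sign (Equiv.addRight c)) with h4 | h4
  · exact h4
  · rw [h4, h.neg_one_pow] at h3
    exact absurd h3 (by decide)

theorem pow_odd_of_cases {x : ℤ} (hx : x = 1 ∨ x = -1) {n : ℕ} (hn : Odd n) : x ^ n = x := by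
  rcases hx with rfl | rfl
  · simp
  · exact hn.neg_one_pow

/-- multiplicativity in extensions -/
theorem sg_ext {N M Q : Type*} [AddCommGroup N] [AddCommGroup M] [AddCommGroup Q] [Finite N]
    [Finite M] [Finite Q] (i : N →+ M) (π : M →+ Q) (hi : Injective i) (hπ : Surjective π)
    (hex : ∀ x, π x = 0 → ∃ y, i y = x) (hex' : ∀ y, π (i y) = 0)
    (fN : N →+ N) (fM : M →+ M) (fQ : Q →+ Q) (h1 : ∀ y, fM (i y) = i (fN y))
    (h2 : ∀ x, π (fM x) = fQ (π x)) (hodd : Odd (Nat.card M)) :
    sg (fM : M → M) = sg (fN : N → N) * sg (fQ : Q → Q) := by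
  classical
  have := Fintype.ofFinite N
  have := Fintype.ofFinite M
  have := Fintype.ofFinite Q
  obtain ⟨σ, hσ⟩ := hπ.hasRightInverse
  have hc : ∀ q, ∃ y, i y = fM (σ q) - σ (fQ q) := by
    intro q
    apply hex
    rw [map_sub, h2, hσ, hσ, sub_self]
  choose c hc using hc
  let e0 : Q × N → M := fun p => σ p.1 + i p.2
  have he0 : Bijective e0 := by
    constructor
    · rintro ⟨q, n⟩ ⟨q', n'⟩ h
      have h3 : σ q + i n = σ q' + i n' := h
      have h4 := congrArg π h3
      rw [map_add, map_add, hσ, hσ, hex', hex', add_zero, add_zero] at h4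
      subst h4
      have h5 := hi (add_left_cancel h3)
      rw [h5]
    · intro x
      obtain ⟨y, hy⟩ := hex (x - σ (π x)) (by rw [map_sub, hσ, sub_self])
      exact ⟨(π x, y), by show σ (π x) + i y = x; rw [hy]; abel⟩
  let e : Q × N ≃ M := Equiv.ofBijective e0 he0
  have hcard : Nat.card M = Nat.card Q * Nat.card N := by
    rw [← Nat.card_congr e, Nat.card_prod]
  have hoQ : Odd (Fintype.card Q) := by
    rw [← Nat.card_eq_fintype_card]
    rw [hcard] at hodd
    exact (Nat.odd_mul.1 hodd).1
  have hoN : Odd (Fintype.card N) := by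
    rw [← Nat.card_eq_fintype_card]
    rw [hcard] at hodd
    exact (Nat.odd_mul.1 hodd).2
  let G1 : Q × N → Q × N := fun p => (fQ p.1, p.2)
  let G2 : Q × N → Q × N := fun p => (p.1, fN p.2 + c p.1)
  have hM : sg (fM : M → M) = sg (G1 ∘ G2) := by
    refine sg_conj e (G1 ∘ G2) fM ?_
    rintro ⟨q, n⟩
    show fM (σ q + i n) = σ (fQ q) + i (fN n + c q)
    rw [map_add, h1, map_add, hc]
    abel
  have hQ1 : sg G1 = sg (fQ : Q → Q) := by
    by_cases hb : Bijective (fQ : Q → Q)
    · have h3 := sg_perm (Equiv.prodCongrLeft fun _ : N => Equiv.ofBijective fQ hb)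
      have h4 := sg_perm (Equiv.ofBijective fQ hb)
      rw [Equiv.Perm.sign_prodCongrLeft, Finset.prod_const, Finset.card_univ, Units.val_pow_eq_pow_val,
        ← h4, pow_odd_of_cases (sg_ne_zero (Equiv.bijective _)) hoN] at h3
      exact h3
    · rw [sg_of_not hb, sg_of_not]
      intro h3
      apply hb
      constructor
      · intro a b hab
        have h5 : G1 (a, 0) = G1 (b, 0) := by
          show (fQ a, (0 : N)) = (fQ b, 0)
          rw [hab]
        exact congrArg Prod.fst (h3.1 h5)
      · intro a
        obtain ⟨p, hp⟩ := h3.2 (a, 0)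
        exact ⟨p.1, congrArg Prod.fst hp⟩
  have hN1 : sg G2 = sg (fN : N → N) := by
    by_cases hb : Bijective (fN : N → N)
    · have h3 := sg_perm (Equiv.prodCongrRight fun q : Q =>
        (Equiv.addRight (c q) : Equiv.Perm N) * Equiv.ofBijective fN hb)
      have h4 := sg_perm (Equiv.ofBijective fN hb)
      rw [Equiv.Perm.sign_prodCongrRight] at h3
      simp only [Equiv.Perm.sign_mul, sign_addRight hoN, one_mul] at h3
      rw [Finset.prod_const, Finset.card_univ, Units.val_pow_eq_pow_val,
        ← h4, pow_odd_of_cases (sg_ne_zero (Equiv.bijective _)) hoQ] at h3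
      exact h3
    · rw [sg_of_not hb, sg_of_not]
      intro h3
      apply hb
      apply Finite.injective_iff_bijective.1
      intro a b hab
      have h5 : G2 (0, a) = G2 (0, b) := by
        show ((0 : Q), fN a + c 0) = (0, fN b + c 0)
        rw [hab]
      exact congrArg Prod.snd (h3.1 h5)
  rw [hM, sg_comp, hQ1, hN1, mul_comm]

/-- on a finite field of odd order the symbol is the quadratic character -/
theorem sg_field {F : Type*} [Field F] [Fintype F] [DecidableEq F] (hF : ringChar F ≠ 2) (a : F) :
    sg (fun x : F => a * x) = quadraticChar F a := by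
  by_cases ha : a = 0
  · subst ha
    rw [sg_of_not, quadraticChar_zero]
    intro h
    have := h.1 (a₁ := 0) (a₂ := 1) (by simp)
    exact zero_ne_one this
  obtain ⟨g, hg0⟩ := IsCyclic.exists_generator (α := Fˣ)
  have hg : ∀ x : Fˣ, ∃ n : ℕ, g ^ n = x := by
    intro x
    exact (mem_powers_iff_mem_zpowers.2 (hg0 x))
  have hcard : Even (Fintype.card F - 1) := by
    have h := FiniteField.odd_card_of_char_ne_two hF
    rcases Nat.odd_iff.2 h with ⟨k, hk⟩
    exact ⟨k, by omega⟩
  have h3 : 3 ≤ Fintype.card F := by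
    have h := FiniteField.odd_card_of_char_ne_two hF
    have h2 := Fintype.one_lt_card (α := F)
    omega
  have hg1 : (g : F) ≠ 1 := by
    intro h
    have h4 : g = 1 := Units.ext h
    have h5 : ∀ x : Fˣ, x = 1 := by
      intro x
      obtain ⟨k, hk⟩ := hg x
      rw [← hk, h4, one_pow]
    have h6 : Fintype.card Fˣ ≤ 1 := Fintype.card_le_one_iff.2 fun x y => by rw [h5 x, h5 y]
    rw [Fintype.card_units] at h6
    omega
  have happ : ∀ y : F, (Equiv.mulLeft₀ (g : F) g.ne_zero) y = (g : F) * y := fun y => rfl
  have hsg : sg (fun x : F => (g : F) * x) = -1 := by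
    have h4 := sg_perm (Equiv.mulLeft₀ (g : F) g.ne_zero)
    have hcyc : Equiv.Perm.IsCycle (Equiv.mulLeft₀ (g : F) g.ne_zero) := by
      refine ⟨1, ?_, ?_⟩
      · rw [happ, mul_one]
        exact hg1
      · intro y hy
        have hy0 : y ≠ 0 := by
          rintro rfl
          apply hy
          rw [happ, mul_zero]
        obtain ⟨k, hk⟩ := hg (Units.mk0 y hy0)
        refine ⟨(k : ℤ), ?_⟩
        have h5 : ∀ m : ℕ, ((Equiv.mulLeft₀ (g : F) g.ne_zero) ^ m) 1 = ((g ^ m : Fˣ) : F) := by
          intro m
          induction m with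
          | zero => simp
          | succ n ih =>
            rw [pow_succ', Equiv.Perm.mul_apply, ih, happ, pow_succ', Units.val_mul]
        rw [zpow_natCast, h5, hk, Units.val_mk0]
    have hsupp : (Equiv.mulLeft₀ (g : F) g.ne_zero).support = Finset.univ.erase 0 := by
      ext y
      rw [Equiv.Perm.mem_support, Finset.mem_erase, happ]
      constructor
      · intro h
        exact ⟨fun h0 => h (by rw [h0, mul_zero]), Finset.mem_univ _⟩
      · rintro ⟨h, _⟩ h8
        exact hg1 (mul_right_cancel₀ h (by rw [h8, one_mul]))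
    rw [hcyc.sign, hsupp, Finset.card_erase_of_mem (Finset.mem_univ _), Finset.card_univ,
      hcard.neg_one_pow] at h4
    exact h4
  have hq : quadraticChar F (g : F) = -1 := by
    obtain ⟨b, hb⟩ := quadraticChar_exists_neg_one hF
    have hb0 : b ≠ 0 := by
      rintro rfl
      rw [quadraticChar_zero] at hb
      omega
    obtain ⟨k, hk⟩ := hg (Units.mk0 b hb0)
    rcases quadraticChar_dichotomy (F := F) g.ne_zero with h4 | h4
    · exfalso
      have h8 : quadraticChar F ((g ^ k : Fˣ) : F) = 1 := by
        rw [Units.val_pow_eq_pow_val, map_pow, h4, one_pow]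
      rw [hk, Units.val_mk0, hb] at h8
      omega
    · exact h4
  have hmul : ∀ u v : Fˣ, sg (fun y : F => ((u * v : Fˣ) : F) * y) =
      sg (fun y : F => (u : F) * y) * sg (fun y : F => (v : F) * y) := by
    intro u v
    rw [← sg_comp]
    congr 1
    funext y
    show ((u * v : Fˣ) : F) * y = (u : F) * ((v : F) * y)
    rw [Units.val_mul, mul_assoc]
  have key : ∀ n : ℕ, sg (fun y : F => ((g ^ n : Fˣ) : F) * y) =
      quadraticChar F ((g ^ n : Fˣ) : F) := by
    intro n
    induction n with
    | zero =>
      simp only [pow_zero, Units.val_one, one_mul, map_one]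
      exact sg_id
    | succ n ih => rw [pow_succ, hmul, ih, hsg, Units.val_mul, map_mul, hq]
  obtain ⟨n, hn⟩ := hg (Units.mk0 a ha)
  have := key n
  rw [hn, Units.val_mk0] at this
  exact this

end sg

end Pool.Agent.Zolo33
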